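import Pool.Agent.Helper44.ST.T1

/-!
# Defect groups and nilpotency of the twisted block
-/

set_option autoImplicit false
open scoped BigOperators MonoidAlgebra
open Classical

set_option linter.unusedSectionVars false
set_option linter.unusedVariables false

namespace Pool.Agent.Helper32.ST

open Pool.Agent.Helper36.ST Pool.Agent.Helper36.NB Pool.Agent.Helper44.S3 Pool.Agent.Helper36.NC
open Pool.Agent.Helper44.ST
open Pool.Agent.Helper32.NO (NilpotentPairs IsBelowQ)

theorem one_of_pow {G : Type} [Group G] {x : G} {n : ℕ} (h1 : x ^ 2 ^ n = 1) (h3 : x ^ 3 = 1) :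
    x = 1 := by
  have hco : Nat.Coprime (2 ^ n) 3 := Nat.Coprime.pow_left n (by norm_num)
  rw [← orderOf_eq_one_iff]
  exact Nat.eq_one_of_dvd_coprimes hco (orderOf_dvd_of_pow_eq_one h1)
    (orderOf_dvd_of_pow_eq_one h3)

section grp

variable {R : Type} [CommRing R] {A B : Type} [Group A] [Group B] [Fintype A] (W : Tw R A B)

/-- The kernel meets the `2`-subgroups trivially. -/
theorem ker_two {P : Subgroup A} (hP : IsPGroup 2 P) {u : A} (hu : u ∈ P) (hk : u ∈ W.π.ker) :
    u = 1 := by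
  obtain ⟨n, hn⟩ := hP ⟨u, hu⟩
  have h1 : u ^ 2 ^ n = 1 := by simpa using congrArg Subtype.val hn
  have h3 : u ^ 3 = 1 := by
    have h4 : (⟨u, hk⟩ : W.π.ker) ^ Nat.card W.π.ker = 1 := pow_card_eq_one'
    rw [W.card] at h4
    simpa using congrArg Subtype.val h4
  exact one_of_pow h1 h3

theorem inj_two {P : Subgroup A} (hP : IsPGroup 2 P) {u v : A} (hu : u ∈ P) (hv : v ∈ P)
    (h : W.π u = W.π v) : u = v := by
  have h1 : u * v⁻¹ = 1 := ker_two W hP (P.mul_mem hu (P.inv_mem hv)) (by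
    rw [MonoidHom.mem_ker, map_mul, map_inv, h, mul_inv_cancel])
  rw [mul_inv_eq_one] at h1
  exact h1

/-- The centralisers. -/
theorem mem_cent {P : Subgroup A} (hP : IsPGroup 2 P) (a : A) :
    W.π a ∈ Subgroup.centralizer ((P.map W.π : Subgroup B) : Set B) ↔
      a ∈ Subgroup.centralizer (P : Set A) := by
  rw [Subgroup.mem_centralizer_iff, Subgroup.mem_centralizer_iff]
  constructor
  · intro h u hu
    have h1 : W.π u * W.π a = W.π a * W.π u := h _ ⟨u, hu, rfl⟩
    -- `z = a⁻¹ u a u⁻¹`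
    obtain ⟨z, hz⟩ : ∃ z, z = a⁻¹ * u * a * u⁻¹ := ⟨_, rfl⟩
    have hzk : z ∈ W.π.ker := by
      rw [MonoidHom.mem_ker, hz, map_mul, map_mul, map_mul, map_inv, map_inv, mul_assoc (W.π a)⁻¹,
        h1]
      group
    have hzu : a⁻¹ * u * a = z * u := by rw [hz]; group
    have hcz : ∀ c, z * c = c * z := W.cen z hzk
    -- powers
    have hpow : ∀ n : ℕ, a⁻¹ * u ^ n * a = z ^ n * u ^ n := by
      intro n
      have h3 : a⁻¹ * u ^ n * a = (a⁻¹ * u * a) ^ n := by
        have := conj_pow (i := n) (a := a⁻¹) (b := u)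
        rw [inv_inv] at this
        exact this.symm
      rw [h3, hzu]
      exact (show Commute z u from hcz u).mul_pow n
    obtain ⟨n, hn⟩ := hP ⟨u, hu⟩
    have h4 : u ^ 2 ^ n = 1 := by simpa using congrArg Subtype.val hn
    have h5 : z ^ 2 ^ n = 1 := by
      have := hpow (2 ^ n)
      rw [h4, mul_one, inv_mul_cancel, mul_one] at this
      exact this.symm
    have h3 : z ^ 3 = 1 := by
      have h4 : (⟨z, hzk⟩ : W.π.ker) ^ Nat.card W.π.ker = 1 := pow_card_eq_one'
      rw [W.card] at h4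
      simpa using congrArg Subtype.val h4
    rw [one_of_pow h5 h3, one_mul] at hzu
    calc u * a = a * (a⁻¹ * u * a) := by group
      _ = a * u := by rw [hzu]
  · rintro h _ ⟨u, hu, rfl⟩
    rw [← map_mul, ← map_mul, h u hu]

theorem unit_ne {R : Type} [Field R] {A B : Type} [Group A] [Group B] (W : Tw R A B) (a : A) :
    W.t * ((W.lam a)⁻¹ : Rˣ) ≠ 0 := by
  apply mul_ne_zero
  · intro h
    have := W.t3
    rw [h, mul_zero] at this
    exact zero_ne_one this
  · exact Units.ne_zero _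

end grp

section field

variable {k : Type} [Field k] {A B : Type} [Group A] [Group B] [Fintype A] (W : Tw k A B)

theorem res_tw_ne {P : Subgroup A} (hP : IsPGroup 2 P) (y : MonoidAlgebra k B) :
    res (Subgroup.centralizer (P : Set A)) (tw W y) ≠ 0 ↔
      res (Subgroup.centralizer ((P.map W.π : Subgroup B) : Set B)) y ≠ 0 := by
  rw [not_iff_not]
  constructor
  · intro h
    ext ⟨c, hc⟩
    obtain ⟨a, rfl⟩ := W.surj c
    have h1 := congrArg (fun x => x.coeff (⟨a, (mem_cent W hP a).1 hc⟩ :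
      Subgroup.centralizer (P : Set A))) h
    simp only [Pool.Agent.Helper36.NB.res_coeff, tw_coeff] at h1
    have h3 : (0 : MonoidAlgebra k (Subgroup.centralizer (P : Set A))).coeff
      ⟨a, (mem_cent W hP a).1 hc⟩ = 0 := rfl
    rw [h3] at h1
    rw [Pool.Agent.Helper36.NB.res_coeff]
    exact (mul_eq_zero.1 h1).resolve_left (unit_ne W a)
  · intro h
    ext ⟨a, ha⟩
    have h1 := congrArg (fun x => x.coeff (⟨W.π a, (mem_cent W hP a).2 ha⟩ :
      Subgroup.centralizer ((P.map W.π : Subgroup B) : Set B))) h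
    simp only [Pool.Agent.Helper36.NB.res_coeff] at h1
    rw [Pool.Agent.Helper36.NB.res_coeff, tw_coeff]
    change W.t * ((W.lam a)⁻¹ : kˣ) * y.coeff (W.π a) = 0
    rw [h1]
    exact mul_zero _

end field

theorem tw_def {O : ValuationSubring ℂ} {A B : Type} [Group A] [Group B] [Fintype A]
    (W : Tw O A B) (b : MonoidAlgebra O B) (P : Subgroup A) (h : IsDefGroup O (tw W b) P) :
    IsDefGroup O b (P.map W.π) := by
  obtain ⟨hP, hne, hmax⟩ := h
  rw [toK_tw] at hne
  refine ⟨hP.map W.π, (res_tw_ne W.red hP _).1 hne, ?_⟩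
  intro P1 hle h1 h2
  -- the inverse image
  obtain ⟨L, hL⟩ : ∃ L, L = P1.comap W.π := ⟨_, rfl⟩
  have hPL : P ≤ L := by
    rw [hL]
    exact Subgroup.map_le_iff_le_comap.1 hle
  have hP' : IsPGroup 2 (P.subgroupOf L) := by
    rw [Subgroup.subgroupOf]
    exact hP.comap_subtype
  have hfact : Fact (Nat.Prime 2) := ⟨Nat.prime_two⟩
  have hfB : Finite B := Finite.of_surjective W.π W.surj
  obtain ⟨S, hS⟩ := hP'.exists_le_sylow
  obtain ⟨P', hP'def⟩ : ∃ P' : Subgroup A, P' = (S : Subgroup L).map L.subtype := ⟨_, rfl⟩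
  have hP'2 : IsPGroup 2 P' := by
    rw [hP'def]
    exact S.isPGroup'.map L.subtype
  have hPP' : P ≤ P' := by
    intro u hu
    rw [hP'def]
    exact ⟨⟨u, hPL hu⟩, hS (Subgroup.mem_subgroupOf.2 hu), rfl⟩
  have hP'L : P' ≤ L := by
    rw [hP'def]
    rintro _ ⟨u, -, rfl⟩
    exact u.2
  have hP'map : P'.map W.π ≤ P1 := by
    rintro _ ⟨u, hu, rfl⟩
    have := hP'L hu
    rw [hL] at this
    exact this
  -- the orders
  have hcardL : Nat.card L = Nat.card P1 * 3 := by
    have h3 : L.index = P1.index := by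
      rw [hL]
      exact Subgroup.index_comap_of_surjective P1 W.surj
    have h4 := Subgroup.card_mul_index L
    have h5 := Subgroup.card_mul_index P1
    have h6 : Nat.card A = Nat.card B * 3 := by
      rw [Subgroup.card_eq_card_quotient_mul_card_subgroup W.π.ker, W.card,
        Nat.card_congr (QuotientGroup.quotientKerEquivOfSurjective W.π W.surj).toEquiv]
    have h7 : 0 < P1.index := Nat.pos_of_ne_zero Subgroup.index_ne_zero_of_finite
    apply Nat.eq_of_mul_eq_mul_right h7
    rw [← h3, h4, h6, ← h5, h3]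
    ring
  have hcardS : Nat.card P' = Nat.card P1 := by
    obtain ⟨m, hm⟩ := IsPGroup.iff_card.mp h1
    have h3 : Nat.card P' = Nat.card S := by
      rw [hP'def]
      exact (Nat.card_congr ((S : Subgroup L).equivMapOfInjective L.subtype
        L.subtype_injective).toEquiv).symm
    have h4 : (Nat.card L).factorization 2 = m := by
      rw [hcardL, hm, Nat.factorization_mul (pow_pos two_pos m).ne' (by norm_num),
        Finsupp.add_apply, Nat.prime_two.factorization_pow]
      have h5 : (3 : ℕ).factorization 2 = 0 :=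
        Nat.factorization_eq_zero_of_not_dvd (by norm_num)
      rw [h5]
      simp
    rw [h3, S.card_eq_multiplicity, h4, hm]
  have heq : P'.map W.π = P1 := by
    apply Subgroup.eq_of_le_of_card_ge hP'map
    rw [← hcardS]
    apply Nat.card_le_card_of_injective (fun u : P' => (⟨W.π u, ⟨u, u.2, rfl⟩⟩ : P'.map W.π))
    intro u v huv
    exact Subtype.ext (inj_two W hP'2 u.2 v.2 (congrArg Subtype.val huv))
  have h3 : P' = P := hmax P' hPP' hP'2 (by
    rw [toK_tw]
    rw [res_tw_ne W.red hP'2]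
    change res (Subgroup.centralizer ((P'.map W.π : Subgroup B) : Set B)) _ ≠ 0
    rw [heq]
    exact h2)
  rw [← heq, h3]

section restr

variable {R : Type} [CommRing R] {A B : Type} [Group A] [Group B] [Fintype A] (W : Tw R A B)

/-- Restriction of the twisting data to subgroups. -/
noncomputable def twR (C : Subgroup A) (C' : Subgroup B) (h : ∀ a, W.π a ∈ C' ↔ a ∈ C) :
    Tw R C C' where
  π := (W.π.comp C.subtype).codRestrict C' (fun c => (h c).2 c.2)
  lam := W.lam.comp C.subtype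
  t := W.t
  surj := by
    rintro ⟨c, hc⟩
    obtain ⟨a, rfl⟩ := W.surj c
    exact ⟨⟨a, (h a).1 hc⟩, rfl⟩
  cen := by
    intro z hz a
    apply Subtype.ext
    apply W.cen
    rw [MonoidHom.mem_ker] at hz ⊢
    exact congrArg Subtype.val hz
  card := by
    rw [← W.card]
    refine Nat.card_congr (Equiv.ofBijective (fun z => ⟨(z.1 : A), ?_⟩) ⟨?_, ?_⟩)
    · rw [MonoidHom.mem_ker]
      exact congrArg Subtype.val z.2
    · intro z z' hzz
      have h5 : ((z.1 : C) : A) = ((z'.1 : C) : A) :=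
        congrArg (fun x : W.π.ker => (x : A)) hzz
      exact Subtype.ext (Subtype.ext h5)
    · rintro ⟨z, hz⟩
      have hz' : W.π z = 1 := hz
      have hzC : z ∈ C := (h z).1 (by rw [hz']; exact C'.one_mem)
      exact ⟨⟨⟨z, hzC⟩, Subtype.ext hz'⟩, rfl⟩
  t3 := W.t3
  sum := by
    intro z hz hz1
    apply W.sum
    · rw [MonoidHom.mem_ker] at hz ⊢
      exact congrArg Subtype.val hz
    · intro h1
      exact hz1 (Subtype.ext h1)

variable (C : Subgroup A) (C' : Subgroup B) (h : ∀ a, W.π a ∈ C' ↔ a ∈ C) [Fintype C]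

theorem res_tw (y : MonoidAlgebra R B) :
    res C (tw W y) = tw (twR W C C' h) (res C' y) := by
  ext c
  rw [Pool.Agent.Helper36.NB.res_coeff, tw_coeff, tw_coeff, Pool.Agent.Helper36.NB.res_coeff]
  rfl

theorem incl_tw (y : MonoidAlgebra R C') :
    incl R C (tw (twR W C C' h) y) = tw W (incl R C' y) := by
  ext a
  rw [tw_coeff]
  by_cases ha : a ∈ C
  · have h1 := Pool.Agent.Helper44.S3.incl_coeff C (tw (twR W C C' h) y) ⟨a, ha⟩
    have h3 := Pool.Agent.Helper44.S3.incl_coeff C' y ⟨W.π a, (h a).2 ha⟩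
    have h4 : (incl R C (tw (twR W C C' h) y)).coeff a = _ := h1
    have h5 : (incl R C' y).coeff (W.π a) = _ := h3
    rw [h4, h5, tw_coeff]
    rfl
  · rw [Pool.Agent.Helper44.S3.incl_supp C _ ha,
      Pool.Agent.Helper44.S3.incl_supp C' _ (fun h3 => ha ((h a).1 h3)), mul_zero]

end restr

section block

variable {R : Type} [CommRing R] {A B : Type} [Group A] [Group B] [Fintype A] (W : Tw R A B)

theorem tw_zero : tw W (0 : MonoidAlgebra R B) = 0 := by
  ext a
  rw [tw_coeff]
  exact mul_zero _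

theorem tw_central {y : MonoidAlgebra R B} (hy : ∀ a, a * y = y * a) (a : MonoidAlgebra R A) :
    a * tw W y = tw W y * a := by
  induction a using MonoidAlgebra.induction_linear with
  | zero => rw [zero_mul, mul_zero]
  | add x x' hx hx' => rw [add_mul, mul_add, hx, hx']
  | single g r =>
    have h1 : (MonoidAlgebra.single g r : MonoidAlgebra R A) = r • el R g := by
      rw [el, MonoidAlgebra.smul_single, smul_eq_mul, mul_one]
    rw [h1, smul_mul_assoc, mul_smul_comm, tw_el_mul, tw_mul_el, hy]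

theorem block_of_tw {y : MonoidAlgebra R B} (h : IsBlock (tw W y)) : IsBlock y := by
  obtain ⟨h0, hi, hc, hp⟩ := h
  refine ⟨?_, ?_, ?_, ?_⟩
  · intro h1
    apply h0
    rw [h1, tw_zero]
  · apply tw_injective W
    rw [tw_mul, hi]
  · intro a
    apply tw_injective W
    rw [tw_mul, tw_mul, hc]
  · intro f hf hfc
    rcases hp (tw W f) (by rw [← tw_mul, hf]) (tw_central W hfc) with h1 | h1
    · left
      apply tw_injective W
      rw [tw_mul, h1, tw_zero]
    · right
      apply tw_injective W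
      rw [tw_mul, h1]

theorem exists_tw_block {x z : MonoidAlgebra R A} (hx : IsBlock x) (hz : z * tw W 1 = z)
    (hne : z * x ≠ 0) : ∃ y, IsBlock y ∧ tw W y = x := by
  have h1 : x * tw W 1 = x := by
    rcases hx.2.2.2 (tw W 1) (by rw [← tw_mul, mul_one])
      (tw_central W (fun a => by rw [mul_one, one_mul])) with h | h
    · exfalso
      apply hne
      rw [← hz, mul_assoc, h, mul_zero]
    · rw [← tw_central W (fun a => by rw [mul_one, one_mul]) x] at h
      exact h
  obtain ⟨y, hy⟩ := tw_range W x h1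
  exact ⟨y, block_of_tw W (by rw [hy]; exact hx), hy⟩

end block

theorem cen_tw {k : Type} [Field k] {A B : Type} [Group A] [Group B] [Fintype A] (W : Tw k A B)
    (P : Subgroup A) (y : MonoidAlgebra k B) : Cen P (tw W y) ↔ Cen (P.map W.π) y := by
  constructor
  · rintro h _ ⟨u, hu, rfl⟩
    rw [← cj_eq_iff]
    apply tw_injective W
    rw [← tw_cj, (cj_eq_iff u _).2 (h u hu)]
  · intro h u hu
    rw [← cj_eq_iff, tw_cj, (cj_eq_iff (W.π u) y).2 (h _ ⟨u, hu, rfl⟩)]

theorem source_tw {k : Type} [Field k] {A B : Type} [Group A] [Group B] [Fintype A] (W : Tw k A B)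
    (b : MonoidAlgebra k B) (P : Subgroup A) (hP : IsPGroup 2 P) (q : MonoidAlgebra k A)
    (hq : IsSource P (tw W b) q) :
    ∃ q0, IsSource (P.map W.π) b q0 ∧ tw W q0 = q := by
  obtain ⟨hqq, hqP, hqe, hprim, hne⟩ := hq
  have h1 : q * tw W 1 = q := by
    rw [← hqe, mul_assoc, ← tw_mul, mul_one]
  obtain ⟨q0, rfl⟩ := tw_range W q h1
  refine ⟨q0, ⟨?_, (cen_tw W P q0).1 hqP, ?_, ?_, (res_tw_ne W hP q0).1 hne⟩, rfl⟩
  · apply tw_injective W
    rw [tw_mul, hqq]
  · apply tw_injective W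
    rw [tw_mul, hqe]
  · intro f hf hfP hqf hfq
    rcases hprim (tw W f) (by rw [← tw_mul, hf]) ((cen_tw W P f).2 hfP)
      (by rw [← tw_mul, hqf]) (by rw [← tw_mul, hfq]) with h | h
    · left
      apply tw_injective W
      rw [h, tw_zero]
    · right
      exact tw_injective W h

theorem below_tw {k : Type} [Field k] {A B : Type} [Group A] [Group B] [Fintype A] (W : Tw k A B)
    (P Q : Subgroup A) (hP : IsPGroup 2 P) (hQ : Q ≤ P) (q0 : MonoidAlgebra k B)
    (β : MonoidAlgebra k (Subgroup.centralizer (Q : Set A))) (hβ : IsBelowQ (tw W q0) Q β) :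
    ∃ β0 : MonoidAlgebra k (Subgroup.centralizer ((Q.map W.π : Subgroup B) : Set B)),
      IsBelowQ q0 (Q.map W.π) β0 ∧
      tw (twR W (Subgroup.centralizer (Q : Set A))
        (Subgroup.centralizer ((Q.map W.π : Subgroup B) : Set B))
        (mem_cent W (hP.to_le hQ))) β0 = β := by
  obtain ⟨hb, hne⟩ := hβ
  rw [res_tw W _ _ (mem_cent W (hP.to_le hQ)) q0] at hne
  obtain ⟨β0, hβ0, h1⟩ := exists_tw_block (twR W (Subgroup.centralizer (Q : Set A))
        (Subgroup.centralizer ((Q.map W.π : Subgroup B) : Set B))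
        (mem_cent W (hP.to_le hQ))) hb (by rw [← tw_mul, mul_one]) hne
  refine ⟨β0, ⟨hβ0, ?_⟩, h1⟩
  intro h0
  apply hne
  rw [← h1, ← tw_mul, h0, tw_zero]

theorem tw_nil {k : Type} [Field k] {A B : Type} [Group A] [Group B] [Fintype A]
    (W : Tw k A B) (b : MonoidAlgebra k B) (P : Subgroup A) (hP : IsPGroup 2 P)
    (h : NilpotentPairs (P.map W.π) b) : NilpotentPairs P (tw W b) := by
  refine ⟨tw_one W h.simple, ?_, ?_⟩
  · intro q hq Q hQ β hβ
    obtain ⟨q0, hq0, rfl⟩ := source_tw W b P hP q hq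
    obtain ⟨β0, hβ0, rfl⟩ := below_tw W P Q hP hQ q0 β hβ
    exact tw_one _ (h.one q0 hq0 (Q.map W.π) (Subgroup.map_mono hQ) β0 hβ0)
  · intro q hq Q Q' hQ hQ' β β' hβ hβ' g hg hgb
    obtain ⟨q0, hq0, rfl⟩ := source_tw W b P hP q hq
    obtain ⟨β0, hβ0, rfl⟩ := below_tw W P Q hP hQ q0 β hβ
    obtain ⟨β0', hβ0', rfl⟩ := below_tw W P Q' hP hQ' q0 β' hβ'
    obtain ⟨d0, ⟨d, hd, rfl⟩, hdu⟩ := h.fus q0 hq0 (Q.map W.π) (Q'.map W.π)
      (Subgroup.map_mono hQ) (Subgroup.map_mono hQ') β0 β0' hβ0 hβ0' (W.π g) (by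
        intro v
        constructor
        · rintro ⟨u, hu, rfl⟩
          exact ⟨g * u * g⁻¹, (hg u).1 hu, by rw [map_mul, map_mul, map_inv]⟩
        · rintro ⟨u, hu, hv⟩
          refine ⟨g⁻¹ * u * g, (hg _).2 ?_, ?_⟩
          · have h3 : g * (g⁻¹ * u * g) * g⁻¹ = u := by group
            rw [h3]
            exact hu
          · rw [map_mul, map_mul, map_inv, hv]
            group) (by
        apply tw_injective W
        change tw W (cj (W.π g) _) = _
        rw [← tw_cj, ← incl_tw W _ _ (mem_cent W (hP.to_le hQ)),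
          ← incl_tw W _ _ (mem_cent W (hP.to_le hQ'))]
        exact hgb)
    refine ⟨d, hd, ?_⟩
    intro u hu
    apply inj_two W hP (P.mul_mem (P.mul_mem hd (hQ hu)) (P.inv_mem hd))
      (hQ' ((hg u).1 hu))
    have h3 := hdu (W.π u) ⟨u, hu, rfl⟩
    rw [map_mul, map_mul, map_inv, map_mul, map_mul, map_inv]
    exact h3

end Pool.Agent.Helper32.ST
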