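import Pool.Agent.Helper32.ST.U2
import Pool.Agent.Helper32.ST.T2

/-!
# The extensions of degree two of a block which is nilpotent or has a normal defect group
-/

set_option autoImplicit false
open scoped BigOperators MonoidAlgebra
open Classical

set_option linter.unusedSectionVars false
set_option linter.unusedVariables false

namespace Pool.Agent.Helper32.ST

open Pool.Agent.Helper36.ST Pool.Agent.Helper36.NB Pool.Agent.Helper44.S3 Pool.Agent.Helper36.NC
open Pool.Agent.Helper32.ND Pool.Agent.Helper32.NO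
open Pool.Agent.Helper44.ST (toK_tw)

/-- The defect group of the block `b` below. -/
theorem def_two (O : ValuationSubring ℂ) (h2 : (2 : O) ∈ IsLocalRing.maximalIdeal O)
    {A K : Type} [Group A] [Fintype A] [Group K] [Fintype K] {i : A →* K}
    (hi : Function.Injective i) (hrn : i.range.Normal)
    (hidx : ∀ g h : K, g ∉ i.range → h ∉ i.range → g * h ∈ i.range)
    (b : MonoidAlgebra O A) (hb : IsBlock b) (Sb : SimpleQuot (toK O A b))
    (F : MonoidAlgebra O K) (hF : F = mp O i b) (hc : ∀ g, g ∉ i.range → cj g F = inv' F)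
    (hFF : F * inv' F = 0)
    (S : SimpleQuot (toK O K (F + inv' F))) {w : K} {P Q : Subgroup K}
    (hw : IsDefectClass O (F + inv' F) w) (hPQ : IsDefectPair w P Q) (t : K) (ht : t ∈ Q)
    (ht' : t ∉ P)
    (hval : Sb.n.factorization 2 + (Nat.card P).factorization 2 =
      (Nat.card A).factorization 2) :
    IsDefGroup O b (P.comap i) ∧ P ≤ i.range ∧ t ∉ i.range := by
  have hchar : CharP (resK O) 2 := resK_charP O h2
  have halg : IsAlgClosed (resK O) := resK_isAlgClosed O
  obtain ⟨hb0, hbb, hbc, -⟩ := id hb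
  have hFi : F * F = F := by rw [hF, ← map_mul, hbb]
  have hFm : ∀ a, mp O i a * F = F * mp O i a := fun a => by
    rw [hF, ← map_mul, hbc, map_mul]
  have hcr : ∀ g ∈ i.range, cj g F = F := by
    rintro _ ⟨a, rfl⟩
    rw [cj_eq_iff, ← mp_el]
    exact hFm _
  have hF'F : inv' F * F = 0 := by
    rw [hF, ← mp_inv, ← map_mul, hbc, map_mul, mp_inv, ← hF, hFF]
  have hFi' : inv' F * inv' F = inv' F := by rw [← inv'_mul, hFi]
  -- the sum
  have her : inv' (F + inv' F) = F + inv' F := by rw [inv'_add, inv'_inv', add_comm]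
  have hee : (F + inv' F) * (F + inv' F) = F + inv' F := by
    rw [add_mul, mul_add, mul_add, hFi, hFi', hFF, hF'F, add_zero, zero_add]
  have hec : ∀ a, a * (F + inv' F) = (F + inv' F) * a := by
    apply central_of_cj
    intro g
    by_cases hg : g ∈ i.range
    · rw [cj_add, hcr g hg, ← cj_inv', hcr g hg]
    · rw [cj_add, hc g hg, ← cj_inv', hc g hg, inv'_inv', add_comm]
  -- the element `w`
  have hww : IsLocalRing.residue O (F.coeff w) ≠ IsLocalRing.residue O (F.coeff w⁻¹) := by
    intro h
    apply hw.2.1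
    rw [MonoidAlgebra.coeff_add, Finsupp.add_apply, inv'_coeff, map_add, h, ← two_mul]
    have h3 : (2 : resK O) = 0 := by
      have := CharP.cast_eq_zero (resK O) 2
      exact_mod_cast this
    rw [h3, zero_mul]
  have hPr : P ≤ i.range := by
    intro d hd
    by_contra hcon
    apply hww
    have h3 := congrArg (fun y => y.coeff w) (hc d hcon)
    simp only [cj_coeff, inv'_coeff] at h3
    have h4 : d⁻¹ * w * d = w := by
      have h5 := hPQ.2.1 hd
      rw [Subgroup.mem_centralizer_singleton_iff] at h5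
      rw [mul_assoc, ← h5]
      group
    rw [h4] at h3
    rw [h3]
  have htx := defectPair_t hPQ ht ht'
  have htr : t ∉ i.range := by
    intro h
    apply hww
    have h3 := congrArg (fun y => y.coeff w⁻¹) (hcr t h)
    simp only [cj_coeff] at h3
    have h4 : t⁻¹ * w⁻¹ * t = w := by
      rw [← htx]; group
    rw [h4] at h3
    rw [h3]
  have hP2 : IsPGroup 2 P := IsPGroup.of_card hPQ.2.2.2.1
  refine ⟨?_, hPr, htr⟩
  -- the defect group
  refine ⟨hP2.comap_of_injective i hi, ?_, ?_⟩
  · have hex : ∃ v : K, (∀ u ∈ P, u * v = v * u) ∧ IsLocalRing.residue O (F.coeff v) ≠ 0 := by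
      have hcw : ∀ u ∈ P, u * w = w * u := by
        intro u hu
        have h5 := hPQ.2.1 hu
        rw [Subgroup.mem_centralizer_singleton_iff] at h5
        exact h5
      by_cases h : IsLocalRing.residue O (F.coeff w) = 0
      · refine ⟨w⁻¹, ?_, ?_⟩
        · intro u hu
          have h3 : Commute u w := hcw u hu
          exact h3.inv_right
        · rw [h] at hww
          exact hww.symm
      · exact ⟨w, hcw, h⟩
    obtain ⟨v, hv, hFv⟩ := hex
    have hvr : v ∈ i.range := by
      by_contra hcon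
      apply hFv
      rw [hF, mp_supp i b v hcon, map_zero]
    obtain ⟨v0, rfl⟩ := hvr
    intro h0
    apply hFv
    have hv0 : v0 ∈ Subgroup.centralizer ((P.comap i : Subgroup A) : Set A) := by
      rw [Subgroup.mem_centralizer_iff]
      intro u hu
      apply hi
      rw [map_mul, map_mul]
      exact hv _ hu
    have h3 := congrArg (fun y => y.coeff (⟨v0, hv0⟩ : Subgroup.centralizer _)) h0
    simp only [Pool.Agent.Helper36.NB.res_coeff, toK_apply] at h3
    rw [hF, mp_coeff hi]
    exact h3
  · intro P1 hP01 hP1 hne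
    have hex : ∃ c : Subgroup.centralizer (P1 : Set A),
        IsLocalRing.residue O (b.coeff (c : A)) ≠ 0 := by
      by_contra hcon
      push Not at hcon
      apply hne
      ext c
      rw [Pool.Agent.Helper36.NB.res_coeff, toK_apply, hcon]
      rfl
    obtain ⟨c, hc'⟩ := hex
    have hbd := def_bound O h2 b hbb hbc Sb c hc' P1 (by
      intro p hp
      have := c.2
      rw [Subgroup.mem_centralizer_iff] at this
      exact this p hp)
    have hcardP : Nat.card (P.comap i) = Nat.card P := by
      refine Nat.card_congr (Equiv.ofBijective (fun u => ⟨i u, u.2⟩) ⟨?_, ?_⟩)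
      · intro u v huv
        exact Subtype.ext (hi (congrArg Subtype.val huv))
      · rintro ⟨v, hv⟩
        obtain ⟨u, rfl⟩ := hPr hv
        exact ⟨⟨u, hv⟩, rfl⟩
    obtain ⟨m, hm⟩ := IsPGroup.iff_card.mp hP1
    obtain ⟨n, hn⟩ := IsPGroup.iff_card.mp hP2
    have hv1 : (Nat.card P1).factorization 2 = m := by
      rw [hm, Nat.prime_two.factorization_pow]; simp
    have hv2 : (Nat.card P).factorization 2 = n := by
      rw [hn, Nat.prime_two.factorization_pow]; simp
    symm
    apply Subgroup.eq_of_le_of_card_ge hP01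
    rw [hcardP, hm, hn]
    apply Nat.pow_le_pow_right (by norm_num)
    omega

/-- The level data, from the nilpotency for the defect group below. -/
theorem exists_lev_two' (O : ValuationSubring ℂ) (h2 : (2 : O) ∈ IsLocalRing.maximalIdeal O)
    {A K : Type} [Group A] [Fintype A] [Group K] [Fintype K] {i : A →* K}
    (hi : Function.Injective i) (hrn : i.range.Normal)
    (hidx : ∀ g h : K, g ∉ i.range → h ∉ i.range → g * h ∈ i.range)
    (b : MonoidAlgebra O A) (hb : IsBlock b) (Sb : SimpleQuot (toK O A b))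
    (F : MonoidAlgebra O K) (hF : F = mp O i b) (hc : ∀ g, g ∉ i.range → cj g F = inv' F)
    (hFF : F * inv' F = 0)
    (S : SimpleQuot (toK O K (F + inv' F))) {w : K} {P Q : Subgroup K}
    (hw : IsDefectClass O (F + inv' F) w) (hPQ : IsDefectPair w P Q) (t : K) (ht : t ∈ Q)
    (ht' : t ∉ P)
    (hval : Sb.n.factorization 2 + (Nat.card P).factorization 2 =
      (Nat.card A).factorization 2)
    (hnilP : NilpotentPairs (P.comap i) (toK O A b)) :
    ∃ q, Lev O P t (F + inv' F) S q := by
  have hchar : CharP (resK O) 2 := resK_charP O h2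
  have halg : IsAlgClosed (resK O) := resK_isAlgClosed O
  obtain ⟨hb0, hbb, hbc, -⟩ := id hb
  have hFi : F * F = F := by rw [hF, ← map_mul, hbb]
  have hFm : ∀ a, mp O i a * F = F * mp O i a := fun a => by
    rw [hF, ← map_mul, hbc, map_mul]
  have hcr : ∀ g ∈ i.range, cj g F = F := by
    rintro _ ⟨a, rfl⟩
    rw [cj_eq_iff, ← mp_el]
    exact hFm _
  have hF'F : inv' F * F = 0 := by
    rw [hF, ← mp_inv, ← map_mul, hbc, map_mul, mp_inv, ← hF, hFF]
  have hFi' : inv' F * inv' F = inv' F := by rw [← inv'_mul, hFi]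
  -- the sum
  have her : inv' (F + inv' F) = F + inv' F := by rw [inv'_add, inv'_inv', add_comm]
  have hee : (F + inv' F) * (F + inv' F) = F + inv' F := by
    rw [add_mul, mul_add, mul_add, hFi, hFi', hFF, hF'F, add_zero, zero_add]
  have hec : ∀ a, a * (F + inv' F) = (F + inv' F) * a := by
    apply central_of_cj
    intro g
    by_cases hg : g ∈ i.range
    · rw [cj_add, hcr g hg, ← cj_inv', hcr g hg]
    · rw [cj_add, hc g hg, ← cj_inv', hc g hg, inv'_inv', add_comm]
  -- the element `w`
  have hww : IsLocalRing.residue O (F.coeff w) ≠ IsLocalRing.residue O (F.coeff w⁻¹) := by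
    intro h
    apply hw.2.1
    rw [MonoidAlgebra.coeff_add, Finsupp.add_apply, inv'_coeff, map_add, h, ← two_mul]
    have h3 : (2 : resK O) = 0 := by
      have := CharP.cast_eq_zero (resK O) 2
      exact_mod_cast this
    rw [h3, zero_mul]
  have hPr : P ≤ i.range := by
    intro d hd
    by_contra hcon
    apply hww
    have h3 := congrArg (fun y => y.coeff w) (hc d hcon)
    simp only [cj_coeff, inv'_coeff] at h3
    have h4 : d⁻¹ * w * d = w := by
      have h5 := hPQ.2.1 hd
      rw [Subgroup.mem_centralizer_singleton_iff] at h5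
      rw [mul_assoc, ← h5]
      group
    rw [h4] at h3
    rw [h3]
  have htx := defectPair_t hPQ ht ht'
  have htr : t ∉ i.range := by
    intro h
    apply hww
    have h3 := congrArg (fun y => y.coeff w⁻¹) (hcr t h)
    simp only [cj_coeff] at h3
    have h4 : t⁻¹ * w⁻¹ * t = w := by
      rw [← htx]; group
    rw [h4] at h3
    rw [h3]
  have hP2 : IsPGroup 2 P := IsPGroup.of_card hPQ.2.2.2.1
  -- the trace at `w`
  have hwr : IsConj w w⁻¹ := isConj_iff.mpr ⟨t, htx⟩
  obtain ⟨I⟩ := exists_irrData K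
  obtain ⟨j, hj, hje, hj1⟩ := exists_rank_one O _ hee hec S
  obtain ⟨-, htrw, -⟩ := defect_data O h2 I _ hee hec S j hj hje hj1 w hw.1 hwr hw.2.1 hw.2.2
    P hPQ.2.2.2.1
  -- over `k`
  obtain ⟨Fk, hFk⟩ : ∃ Fk, Fk = toK O K F := ⟨_, rfl⟩
  have hFk' : Fk = mp (resK O) i (toK O A b) := by rw [hFk, hF, toK_mp]
  have hek : toK O K (F + inv' F) = Fk + inv' Fk := by rw [map_add, toK_inv', hFk]
  have hbk : toK O A b * toK O A b = toK O A b := by rw [← map_mul, hbb]
  have hbck : ∀ a, a * toK O A b = toK O A b * a := by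
    intro a
    obtain ⟨a', rfl⟩ := toK_surjective O a
    rw [← map_mul, hbc, map_mul]
  have hck : ∀ g, g ∉ i.range → cj g Fk = inv' Fk := by
    intro g hg
    rw [hFk, ← toK_cj, hc g hg, toK_inv']
  have hFFk : Fk * inv' Fk = 0 := by rw [hFk, ← toK_inv', ← map_mul, hFF, map_zero]
  obtain ⟨Sk, hSk⟩ : ∃ Sk : SimpleQuot (Fk + inv' Fk), ∀ a, Sk.lam a = S.lam a := by
    refine ⟨⟨S.n, S.ρ, S.pos, S.surj, by rw [← hek]; exact S.one, by rw [← hek]; exact S.nil⟩,
      fun a => rfl⟩
  obtain ⟨q, hq, hqb, hqP, hqt, hqlam, hqH⟩ := exists_q hi hrn hidx (toK O A b) hbk hbck Fk hFk'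
    hck Sk P t w htr (fun u hu => conj_mem hPQ ht hu) (tt_mem hPQ ht ht') hw.1 htx
    (fun u hu => by
      have h5 := hPQ.2.1 hu
      rw [Subgroup.mem_centralizer_singleton_iff] at h5
      exact h5) (by rw [hSk]; exact htrw)
  let lam : MonoidAlgebra (resK O) A →ₗ[resK O] resK O :=
    { toFun := fun a => Sk.lam (mp (resK O) i a)
      map_add' := fun a b => by rw [map_add, map_add]
      map_smul' := fun c a => by rw [mp_smul, map_smul]; rfl }
  have hloc := locK_two hi hrn hidx (toK O A b) hbk hbck Fk hFk' hck hFFk P hP2 hPr q hq hqb hqP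
    lam (fun a b => by
      change Sk.lam (mp (resK O) i (a * b)) = Sk.lam (mp (resK O) i (b * a))
      rw [map_mul (mp (resK O) i) a b, map_mul (mp (resK O) i) b a]
      exact Sk.lam_comm _ _) hqlam hqH hnilP
  have hqF : mp (resK O) i q * Fk = mp (resK O) i q := by rw [hFk', ← map_mul, hqb]
  refine ⟨mp (resK O) i q,
    { ee := hee
      ec := hec
      er := her
      hD := hP2
      tD := fun u hu => conj_mem hPQ ht hu
      tt := tt_mem hPQ ht ht'
      tn := ht'
      card := rank_e O h2 _ hee hec S w hw hwr P hPQ.2.2.2.1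
      qq := by rw [← map_mul, hq]
      qe := ?_
      qD := ?_
      qt := hqt
      lam := by rw [← hSk]; exact hqlam
      loc := hloc }⟩
  · rw [hek, mul_add, hqF]
    nth_rewrite 2 [← hqF]
    rw [mul_assoc, hFFk, mul_zero, add_zero]
  · intro u hu
    obtain ⟨v, rfl⟩ := hPr hu
    rw [← mp_el, ← map_mul, hqP v hu, map_mul]

/-- The extensions of degree two of a block with one simple module which is nilpotent or has a
normal defect group. -/
theorem idExt_or (O : ValuationSubring ℂ) (h2 : (2 : O) ∈ IsLocalRing.maximalIdeal O)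
    {G : Type} [Group G] [Fintype G] {H : Subgroup G} (hH : H.Normal) (b : MonoidAlgebra O H)
    (hb : IsBlock b) (Sb : SimpleQuot (toK O H b)) (hFF : incl O H b * inv' (incl O H b) = 0)
    (hnil : ∀ P : Subgroup H, IsDefGroup O b P → P.Normal ∨ NilpotentPairs P (toK O H b)) :
    IdExt O b := by
  intro K hle hrel hc
  obtain ⟨h1, h3, h4, h5, h6, h7, z, hz⟩ := ext_facts O h2 hH b hb hFF hle hrel hc
  have halg : IsAlgClosed (resK O) := resK_isAlgClosed O
  obtain ⟨hb0, hbb, hbc, -⟩ := id hb
  have hbk0 : toK O H b ≠ 0 := fun h => hb0 (idem_eq_zero O hbb h)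
  have hone : OneSimple (toK O H b) := oneSimple_of_simpleQuot Sb
  obtain ⟨SK⟩ := ext_simple O h2 hH b hb hFF hle hrel hc hone
  rw [h5]
  refine ⟨SK, ?_⟩
  intro w P Q hw hPQ hne
  have hHn : (H.subgroupOf K).Normal := hH.subgroupOf K
  have hblK : IsBlock (trE hle O b) := isBlock_trE hle hb
  have hbl := isBlock_two (trE hle O b) hblK (by rw [h4]; exact h6) (by rw [h4]; exact h7)
    ⟨z, hz⟩
  rw [h4] at hbl
  obtain ⟨he0, he, hec, -⟩ := id hbl
  have her : inv' (mp O (Subgroup.inclusion hle) b + inv' (mp O (Subgroup.inclusion hle) b)) =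
      mp O (Subgroup.inclusion hle) b + inv' (mp O (Subgroup.inclusion hle) b) := by
    rw [inv'_add, inv'_inv', add_comm]
  -- an element of `Q ∖ P`
  obtain ⟨t, ht, ht'⟩ : ∃ t ∈ Q, t ∉ P := by
    by_contra hcon
    push Not at hcon
    exact hne (le_antisymm hPQ.1 hcon)
  -- the number
  have hval : Sb.n.factorization 2 + (Nat.card P).factorization 2 =
      (Nat.card H).factorization 2 := by
    obtain ⟨SbK, hSbK⟩ : ∃ S' : SimpleQuot (toK O (H.subgroupOf K) (trE hle O b)),
        S'.n = Sb.n := by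
      rw [toK_trE]
      exact ⟨sqE hle Sb, rfl⟩
    have hw' := hw
    rw [← h4] at hw'
    obtain ⟨SK', -⟩ : ∃ S' : SimpleQuot (toK O K (incl O (H.subgroupOf K) (trE hle O b) +
        inv' (incl O (H.subgroupOf K) (trE hle O b)))), S'.n = SK.n := by
      rw [h4]
      exact ⟨SK, rfl⟩
    obtain ⟨-, h9⟩ := two_num O h2 h3 (trE hle O b) hblK SbK (by rw [h4]; exact h6)
      (by rw [h4]; exact h7) SK' hw' (pair_real hPQ hne) hPQ.2.2.2.1
    have h10 : Nat.card (H.subgroupOf K) = Nat.card H :=
      Nat.card_congr (Subgroup.subgroupOfEquivOfLe hle).toEquiv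
    rw [← hSbK, h9, h10]
  have hrn : (Subgroup.inclusion hle).range.Normal := by rw [h1]; exact hHn
  have hidx : ∀ g h : K, g ∉ (Subgroup.inclusion hle).range →
      h ∉ (Subgroup.inclusion hle).range → g * h ∈ (Subgroup.inclusion hle).range := by
    intro g h hg hh
    rw [h1] at hg hh ⊢
    exact (Subgroup.mul_mem_iff_of_index_two h3).2 (by tauto)
  have h7' : ∀ g, g ∉ (Subgroup.inclusion hle).range →
      cj g (mp O (Subgroup.inclusion hle) b) = inv' (mp O (Subgroup.inclusion hle) b) :=
    fun g hg => h7 g (by rw [← h1]; exact hg)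
  obtain ⟨hdef, hPr, htr⟩ := def_two O h2 (Subgroup.inclusion_injective hle) hrn hidx b hb Sb
    (mp O (Subgroup.inclusion hle) b) rfl h7' h6 SK hw hPQ t ht ht' hval
  rcases hnil _ hdef with hn | hn
  · -- normal defect group
    have hn' : P.Normal := by
      have hr : ∀ h ∈ (Subgroup.inclusion hle).range, ∀ u ∈ P, h * u * h⁻¹ ∈ P := by
        rintro _ ⟨h, rfl⟩ u hu
        obtain ⟨u0, rfl⟩ := hPr hu
        have h9 := hn.conj_mem u0 hu h
        have h10 : Subgroup.inclusion hle (h * u0 * h⁻¹) ∈ P := h9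
        rwa [map_mul, map_mul, map_inv] at h10
      constructor
      intro u hu g
      by_cases hg : g ∈ (Subgroup.inclusion hle).range
      · exact hr g hg u hu
      · have h9 := hr (t * g) (hidx _ _ htr hg) u hu
        have h10 := conj_mem hPQ ht h9
        have h11 : t⁻¹ * (t * g * u * (t * g)⁻¹) * t = g * u * g⁻¹ := by group
        rwa [h11] at h10
    exact sum_of_orb O h2 _ he hec SK P Q
      (orb_normal O h2 _ hbl her SK w hw P Q hPQ hne hn')
  · -- nilpotent
    obtain ⟨q, hL⟩ := exists_lev_two' O h2 (i := Subgroup.inclusion hle)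
      (Subgroup.inclusion_injective hle) hrn hidx b hb Sb
      (mp O (Subgroup.inclusion hle) b) rfl h7' h6 SK hw hPQ t ht ht' hval hn
    rw [total_lev h2 hL, card_coset hPQ ht ht']

theorem tw_or {O : ValuationSubring ℂ} {A B : Type} [Group A] [Group B] [Fintype A]
    (W : Tw O A B) (b : MonoidAlgebra O B)
    (h : ∀ P : Subgroup B, IsDefGroup O b P → P.Normal ∨ NilpotentPairs P (toK O B b)) :
    ∀ P : Subgroup A, IsDefGroup O (tw W b) P →
      P.Normal ∨ NilpotentPairs P (toK O A (tw W b)) := by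
  intro P hP
  have hP2 := hP.1
  rcases h _ (tw_def W b P hP) with hn | hn
  · left
    constructor
    intro u hu a
    have h1 : W.π (a * u * a⁻¹) ∈ P.map W.π := by
      rw [map_mul, map_mul, map_inv]
      exact hn.conj_mem _ ⟨u, hu, rfl⟩ _
    obtain ⟨v, hv, hvu⟩ := h1
    obtain ⟨z, hz⟩ : ∃ z, z = a * u * a⁻¹ * v⁻¹ := ⟨_, rfl⟩
    have hzk : z ∈ W.π.ker := by
      rw [MonoidHom.mem_ker, hz, map_mul, map_inv, hvu, mul_inv_cancel]
    have hzv : a * u * a⁻¹ = z * v := by rw [hz]; group
    have hcz : ∀ c, z * c = c * z := W.cen z hzk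
    have hpow : ∀ n : ℕ, a * u ^ n * a⁻¹ = z ^ n * v ^ n := by
      intro n
      rw [← conj_pow, hzv]
      exact (show Commute z v from hcz v).mul_pow n
    obtain ⟨n, hn'⟩ := hP2 ⟨u, hu⟩
    obtain ⟨m, hm'⟩ := hP2 ⟨v, hv⟩
    have hu4 : u ^ 2 ^ n = 1 := by simpa using congrArg Subtype.val hn'
    have hv4 : v ^ 2 ^ m = 1 := by simpa using congrArg Subtype.val hm'
    have hu5 : u ^ 2 ^ (n + m) = 1 := by rw [pow_add, pow_mul, hu4, one_pow]
    have hv5 : v ^ 2 ^ (n + m) = 1 := by rw [add_comm, pow_add, pow_mul, hv4, one_pow]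
    have h5 : z ^ 2 ^ (n + m) = 1 := by
      have := hpow (2 ^ (n + m))
      rw [hu5, hv5, mul_one, mul_one, mul_inv_cancel] at this
      exact this.symm
    have h3 : z ^ 3 = 1 := by
      have h4 : (⟨z, hzk⟩ : W.π.ker) ^ Nat.card W.π.ker = 1 := pow_card_eq_one'
      rw [W.card] at h4
      simpa using congrArg Subtype.val h4
    rw [hzv, one_of_pow h5 h3, one_mul]
    exact hv
  · right
    rw [toK_tw]
    exact tw_nil W.red (toK O B b) P hP2 hn

end Pool.Agent.Helper32.ST
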