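import Pool.Agent.Helper32.ST.U2
import Pool.Agent.Helper32.ST.T2
import Pool.Agent.Helper28.ST.S

/-!
# Twisting and quotients
-/

set_option autoImplicit false
open scoped BigOperators MonoidAlgebra
open Classical

set_option linter.unusedSectionVars false
set_option linter.unusedVariables false

namespace Pool.Agent.Helper32.ST

open Pool.Agent.Helper36.ST Pool.Agent.Helper36.NB Pool.Agent.Helper44.S3 Pool.Agent.Helper36.NC
open Pool.Agent.Helper32.NO (NilpotentPairs prR)
open Pool.Agent.Helper44.NO (prR_surj)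
open Pool.Agent.Helper44.ST (tw_coeff toK_tw mul_tw prT prT_single prT_tw tw_block)
open Pool.Agent.Helper28.ST (C3)

theorem prR_el {R : Type} [CommRing R] {G : Type} [Group G] (Q : Subgroup G) [Q.Normal] (g : G) :
    prR R Q (el R g) = el R (g : G ⧸ Q) := by
  unfold prR el
  rw [MonoidAlgebra.mapDomainRingHom_apply, MonoidAlgebra.mapDomain_single]
  rfl

theorem prR_single' {R : Type} [CommRing R] {G : Type} [Group G] (Q : Subgroup G) [Q.Normal] (g : G)
    (r : R) : prR R Q (MonoidAlgebra.single g r) = MonoidAlgebra.single (g : G ⧸ Q) r := by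
  unfold prR
  rw [MonoidAlgebra.mapDomainRingHom_apply, MonoidAlgebra.mapDomain_single]
  rfl

section twQ

variable {R : Type} [CommRing R] {A B : Type} [Group A] [Group B] (W : Tw R A B)
  (QA : Subgroup A) [QA.Normal] (QB : Subgroup B) [QB.Normal]
  (h1 : ∀ a ∈ QA, W.π a ∈ QB) (h2 : ∀ a ∈ QA, W.π a = 1 → a = 1)
  (h3 : ∀ b ∈ QB, ∃ a ∈ QA, W.π a = b) (hl : ∀ a ∈ QA, W.lam a = 1)

/-- The elements of the kernel of the quotient. -/
theorem ker_quot (h3 : ∀ b ∈ QB, ∃ a ∈ QA, W.π a = b) (a : A) (h : W.π a ∈ QB) :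
    ∃ z ∈ W.π.ker, (z : A ⧸ QA) = (a : A ⧸ QA) := by
  obtain ⟨q, hq, hqa⟩ := h3 _ h
  refine ⟨a * q⁻¹, ?_, ?_⟩
  · rw [MonoidHom.mem_ker, map_mul, map_inv, hqa, mul_inv_cancel]
  · rw [QuotientGroup.eq]
    have h4 : (a * q⁻¹)⁻¹ * a = q := by group
    rw [h4]
    exact hq

/-- Twisting data for the quotients. -/
noncomputable def twQ : Tw R (A ⧸ QA) (B ⧸ QB) where
  π := QuotientGroup.map QA QB W.π (fun a ha => h1 a ha)
  lam := QuotientGroup.lift QA W.lam (fun a ha => hl a ha)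
  t := W.t
  surj := by
    intro b
    induction b using QuotientGroup.induction_on with
    | H b =>
      obtain ⟨a, rfl⟩ := W.surj b
      exact ⟨(a : A ⧸ QA), rfl⟩
  cen := by
    intro z hz a
    induction z using QuotientGroup.induction_on with
    | H z =>
      induction a using QuotientGroup.induction_on with
      | H a =>
        have h4 : ((W.π z : B) : B ⧸ QB) = 1 := hz
        rw [QuotientGroup.eq_one_iff] at h4
        obtain ⟨z0, hz0, h5⟩ := ker_quot W QA QB h3 z h4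
        rw [← h5, ← QuotientGroup.mk_mul, W.cen z0 hz0 a, QuotientGroup.mk_mul]
  card := by
    rw [← W.card]
    refine (Nat.card_congr (Equiv.ofBijective
      (fun z : W.π.ker => (⟨((z : A) : A ⧸ QA), ?_⟩ : (QuotientGroup.map QA QB W.π
        (fun a ha => h1 a ha)).ker)) ⟨?_, ?_⟩)).symm
    · rw [MonoidHom.mem_ker]
      have h4 : W.π z = 1 := z.2
      change ((W.π z : B) : B ⧸ QB) = 1
      rw [h4]
      rfl
    · intro z z' hzz
      have h4 : ((z : A) : A ⧸ QA) = ((z' : A) : A ⧸ QA) := congrArg Subtype.val hzz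
      rw [QuotientGroup.eq] at h4
      have h5 : W.π ((z : A)⁻¹ * z') = 1 := by
        rw [map_mul, map_inv, show W.π z = 1 from z.2, show W.π z' = 1 from z'.2]
        group
      have h6 := h2 _ h4 h5
      apply Subtype.ext
      exact (inv_mul_eq_one.1 h6)
    · rintro ⟨z, hz⟩
      induction z using QuotientGroup.induction_on with
      | H z =>
        have h4 : ((W.π z : B) : B ⧸ QB) = 1 := hz
        rw [QuotientGroup.eq_one_iff] at h4
        obtain ⟨z0, hz0, h5⟩ := ker_quot W QA QB h3 z h4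
        exact ⟨⟨z0, hz0⟩, Subtype.ext h5⟩
  t3 := W.t3
  sum := by
    intro z hz hz1
    induction z using QuotientGroup.induction_on with
    | H z =>
      have h4 : ((W.π z : B) : B ⧸ QB) = 1 := hz
      rw [QuotientGroup.eq_one_iff] at h4
      obtain ⟨z0, hz0, h5⟩ := ker_quot W QA QB h3 z h4
      rw [← h5]
      apply W.sum z0 hz0
      rintro rfl
      apply hz1
      rw [← h5]
      rfl

theorem twQ_π (a : A) : (twQ W QA QB h1 h2 h3 hl).π (a : A ⧸ QA) = ((W.π a : B) : B ⧸ QB) := rfl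

theorem twQ_lam (a : A) : (twQ W QA QB h1 h2 h3 hl).lam (a : A ⧸ QA) = W.lam a := rfl

theorem tw_one_eq {R : Type} [CommRing R] {A B : Type} [Group A] [Group B] [Fintype A]
    (W : Tw R A B) : tw W 1 = ∑ a ∈ Finset.univ.filter (fun a : A => W.π a = 1),
      (W.t * ((W.lam a)⁻¹ : Rˣ)) • el R a := by
  unfold tw
  rw [Finset.sum_filter]
  apply Finset.sum_congr rfl
  intro a _
  have h : (1 : MonoidAlgebra R B).coeff (W.π a) = if W.π a = 1 then 1 else 0 := by
    rw [MonoidAlgebra.one_def, MonoidAlgebra.coeff_single, Finsupp.single_apply]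
    by_cases h4 : W.π a = 1
    · rw [if_pos h4, if_pos h4.symm]
    · rw [if_neg h4, if_neg (fun h5 => h4 h5.symm)]
  rw [h]
  by_cases h4 : W.π a = 1
  · rw [if_pos h4, if_pos h4, mul_one]
  · rw [if_neg h4, if_neg h4, mul_zero, zero_smul]

variable [Fintype A] [Fintype (A ⧸ QA)]

theorem prR_tw_one : prR R QA (tw W 1) = tw (twQ W QA QB h1 h2 h3 hl) 1 := by
  rw [tw_one_eq, tw_one_eq, map_sum]
  refine Finset.sum_bij (fun a _ => (a : A ⧸ QA)) ?_ ?_ ?_ ?_
  · intro a ha
    simp only [Finset.mem_filter, Finset.mem_univ, true_and] at ha ⊢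
    rw [twQ_π, ha]
    rfl
  · intro a ha a' ha' h
    simp only [Finset.mem_filter, Finset.mem_univ, true_and] at ha ha'
    rw [QuotientGroup.eq] at h
    have h5 : W.π ((a : A)⁻¹ * a') = 1 := by
      rw [map_mul, map_inv, ha, ha']
      group
    exact inv_mul_eq_one.1 (h2 _ h h5)
  · intro c hc
    simp only [Finset.mem_filter, Finset.mem_univ, true_and] at hc
    induction c using QuotientGroup.induction_on with
    | H c =>
      rw [twQ_π, QuotientGroup.eq_one_iff] at hc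
      obtain ⟨z0, hz0, h5⟩ := ker_quot W QA QB h3 c hc
      refine ⟨z0, ?_, h5⟩
      simp only [Finset.mem_filter, Finset.mem_univ, true_and]
      exact hz0
  · intro a ha
    have h4 : ∀ r : R, prR R QA (r • el R a) = r • el R (a : A ⧸ QA) := by
      intro r
      have h5 : (r • el R a : MonoidAlgebra R A) = MonoidAlgebra.single a r := by
        rw [el, MonoidAlgebra.smul_single, smul_eq_mul, mul_one]
      have h6 : (r • el R (a : A ⧸ QA) : MonoidAlgebra R (A ⧸ QA)) =
          MonoidAlgebra.single (a : A ⧸ QA) r := by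
        rw [el, MonoidAlgebra.smul_single, smul_eq_mul, mul_one]
      rw [h5, h6, prR_single']
    rw [h4]
    rfl

theorem prT_prR (x : MonoidAlgebra R A) :
    prT (twQ W QA QB h1 h2 h3 hl) (prR R QA x) = prR R QB (prT W x) := by
  induction x using MonoidAlgebra.induction_linear with
  | zero => simp only [map_zero]
  | add x y hx hy => simp only [map_add, hx, hy]
  | single a r =>
    rw [prR_single', prT_single, prT_single, prR_single']
    rfl

theorem prR_tw (y : MonoidAlgebra R B) :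
    prR R QA (tw W y) = tw (twQ W QA QB h1 h2 h3 hl) (prR R QB y) := by
  have h4 : tw W y = tw W y * tw W 1 := by
    rw [← Pool.Agent.Helper44.ST.tw_mul, mul_one]
  rw [h4, map_mul, prR_tw_one W QA QB h1 h2 h3 hl, mul_tw, mul_one, prT_prR, prT_tw]

end twQ

/-- The quotient of the twisted block is nilpotent. -/
theorem tw_nilQ {O : ValuationSubring ℂ} {A B : Type} [Group A] [Group B] [Fintype A]
    (W : Tw O A B) (QA : Subgroup A) [QA.Normal] (QB : Subgroup B) [QB.Normal]
    (h1 : ∀ a ∈ QA, W.π a ∈ QB) (h2 : ∀ a ∈ QA, W.π a = 1 → a = 1)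
    (h3 : ∀ b ∈ QB, ∃ a ∈ QA, W.π a = b) (hl : ∀ a ∈ QA, W.lam a = 1)
    (b : MonoidAlgebra O B)
    (h : ∀ P : Subgroup (B ⧸ QB), IsDefGroup O (prR O QB b) P →
      NilpotentPairs P (toK O (B ⧸ QB) (prR O QB b))) (P : Subgroup (A ⧸ QA))
    (hP : IsDefGroup O (prR O QA (tw W b)) P) :
    NilpotentPairs P (toK O (A ⧸ QA) (prR O QA (tw W b))) := by
  let _ : Fintype (A ⧸ QA) := Fintype.ofFinite _
  rw [prR_tw W QA QB h1 h2 h3 hl] at hP ⊢
  have hP2 := hP.1
  rw [toK_tw]
  exact tw_nil (twQ W QA QB h1 h2 h3 hl).red _ P hP2 (h _ (tw_def _ _ P hP))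

/-- The extensions of degree two of the twisted block. -/
theorem idExt_twQ (O : ValuationSubring ℂ) (h2 : (2 : O) ∈ IsLocalRing.maximalIdeal O)
    {G : Type} [Group G] [Fintype G] {H : Subgroup G} (b : MonoidAlgebra O H)
    (hb : IsBlock b) (Q : Subgroup G) (hQn : Q.Normal) (hQ : IsPGroup 2 Q) (hQH : Q ≤ H)
    [(Q.subgroupOf H).Normal]
    (hnil : ∀ P : Subgroup (H ⧸ Q.subgroupOf H), IsDefGroup O (prR O (Q.subgroupOf H) b) P →
      NilpotentPairs P (toK O _ (prR O (Q.subgroupOf H) b)))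
    (hH' : (H.prod C3 : Subgroup (G × DihedralGroup 3)).Normal)
    (W : Tw O (H.prod C3 : Subgroup (G × DihedralGroup 3)) H)
    (hπ : ∀ x, W.π x = ⟨x.1.1, (Subgroup.mem_prod.1 x.2).1⟩)
    (hlam : ∀ x, x.1.2 = 1 → W.lam x = 1)
    (Sb : SimpleQuot (toK O (H.prod C3 : Subgroup (G × DihedralGroup 3)) (tw W b)))
    (hFF : incl O (H.prod C3 : Subgroup (G × DihedralGroup 3)) (tw W b) *
      inv' (incl O (H.prod C3 : Subgroup (G × DihedralGroup 3)) (tw W b)) = 0) :
    IdExt O (tw W b) := by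
  have hQn' : (Q.prod ⊥ : Subgroup (G × DihedralGroup 3)).Normal := Subgroup.prod_normal Q ⊥
  have hle : (Q.prod ⊥ : Subgroup (G × DihedralGroup 3)) ≤ H.prod C3 :=
    Subgroup.prod_mono hQH bot_le
  have hn : ((Q.prod ⊥ : Subgroup (G × DihedralGroup 3)).subgroupOf (H.prod C3)).Normal :=
    hQn'.subgroupOf _
  have hQ2 : IsPGroup 2 (Q.prod ⊥ : Subgroup (G × DihedralGroup 3)) := by
    rintro ⟨⟨q, s⟩, hq⟩
    obtain ⟨hq1, hq2⟩ := Subgroup.mem_prod.1 hq
    have hs : s = 1 := Subgroup.mem_bot.1 hq2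
    obtain ⟨n, hn⟩ := hQ ⟨q, hq1⟩
    refine ⟨n, Subtype.ext ?_⟩
    have h5 : q ^ 2 ^ n = 1 := by simpa using congrArg Subtype.val hn
    change (q, s) ^ 2 ^ n = 1
    rw [hs, Prod.pow_mk, h5, one_pow]
    rfl
  refine idExt_nilQ O h2 hH' (tw W b) (tw_block W hb) Sb hFF (Q.prod ⊥) hQn' hQ2 hle ?_
  intro P hP
  have hm : ∀ a : (H.prod C3 : Subgroup (G × DihedralGroup 3)),
      a ∈ (Q.prod ⊥ : Subgroup (G × DihedralGroup 3)).subgroupOf (H.prod C3) ↔
        (a : G × DihedralGroup 3).1 ∈ Q ∧ (a : G × DihedralGroup 3).2 = 1 := by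
    intro a
    rw [Subgroup.mem_subgroupOf, Subgroup.mem_prod, Subgroup.mem_bot]
  refine tw_nilQ W _ (Q.subgroupOf H) ?_ ?_ ?_ ?_ b hnil P hP
  · intro a ha
    rw [hπ, Subgroup.mem_subgroupOf]
    exact ((hm a).1 ha).1
  · intro a ha h
    rw [hπ] at h
    have h5 : (a : G × DihedralGroup 3).1 = 1 := congrArg Subtype.val h
    exact Subtype.ext (Prod.ext h5 ((hm a).1 ha).2)
  · rintro ⟨c, hc⟩ hc'
    refine ⟨⟨(c, 1), Subgroup.mem_prod.2 ⟨hc, C3.one_mem⟩⟩,
      (hm _).2 ⟨Subgroup.mem_subgroupOf.1 hc', rfl⟩, ?_⟩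
    rw [hπ]
  · intro a ha
    exact hlam a ((hm a).1 ha).2

end Pool.Agent.Helper32.ST
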