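import Pool.Agent.Helper36.ST.Main
import Pool.Agent.Helper44.ST.T1
import Pool.Agent.Helper28.ST.S3
import Pool.Agent.Helper32.ST.U3
import Pool.Agent.Helper32.ST.U4

/-!
# The relative theorem, with a normal `2`-subgroup
-/

set_option autoImplicit false
open scoped BigOperators MonoidAlgebra
open Classical

namespace Pool.Agent.Helper32.ST

open Pool.Agent.Helper36.ST Pool.Agent.Helper36.NB Pool.Agent.Helper44.S3 Pool.Agent.Helper36.NC
open Pool.Agent.Helper32.NO Pool.Agent.Helper28.ST
open Pool.Agent.Helper44.ST (tw_block tw_orth toK_tw tw_simple)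

/-- The block `b` of `H` is nilpotent, or it has a normal defect group, or it is nilpotent modulo a
`2`-subgroup `Q` of `H` which is normal in `G`. -/
def GoodBlock (O : ValuationSubring ℂ) {G : Type} [Group G] {H : Subgroup G}
    (b : MonoidAlgebra O H) : Prop :=
  (∀ P : Subgroup H, IsDefGroup O b P → P.Normal ∨ NilpotentPairs P (toK O H b)) ∨
    ∃ (Q : Subgroup G) (_ : Q.Normal) (_ : (Q.subgroupOf H).Normal), IsPGroup 2 Q ∧ Q ≤ H ∧
      ∀ P : Subgroup (H ⧸ Q.subgroupOf H), IsDefGroup O (prR O (Q.subgroupOf H) b) P →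
        NilpotentPairs P (toK O (H ⧸ Q.subgroupOf H) (prR O (Q.subgroupOf H) b))

theorem st_finalQ (O : ValuationSubring ℂ) (h2 : (2 : O) ∈ IsLocalRing.maximalIdeal O)
    {G : Type} [Group G] [Fintype G] {H : Subgroup G} (hH : H.Normal) (b : MonoidAlgebra O H)
    (hb : IsBlock b) (hone : OneSimple (toK O H b))
    (hnil : GoodBlock O b)
    {T : Subgroup G} (hT : ∀ g, g ∈ T ↔ cj g (incl O H b) = incl O H b)
    (hsol : Group.IsSolvable (T ⧸ H.subgroupOf T)) {e : MonoidAlgebra O G} (he : IsBlock e)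
    (her : inv' e = e) (S : SimpleQuot (toK O G e)) (hne : e * incl O H b ≠ 0) :
    Tot O e S.n := by
  have halg : IsAlgClosed (resK O) := resK_isAlgClosed O
  obtain ⟨hb0, hbb, hbc, hbp⟩ := id hb
  have hbk0 : toK O H b ≠ 0 := fun h => hb0 (idem_eq_zero O hbb h)
  obtain ⟨Sb⟩ := simpleQuot_of_oneSimple (toK O H b) hbk0 (by rw [← map_mul, hbb])
    (fun y => by
      obtain ⟨y', rfl⟩ := toK_surjective O y
      rw [← map_mul, ← map_mul, hbc]) hone
  obtain ⟨e', he', her', ⟨S', hS'⟩, htot, hW⟩ := s3_trick'' O h2 e he her S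
  obtain ⟨W, hWπ, hne', hstab, hlam⟩ := hW H b hH hne
  apply htot
  rw [← hS']
  set b' := tw W b with hb'
  have hbl' : IsBlock b' := tw_block W hb
  have horth : b' * inv' b' = 0 := tw_orth W b b
  have hbr' : inv' b' ≠ b' := by
    intro h
    apply hbl'.1
    rw [h, hbl'.2.1] at horth
    exact horth
  have hH' : (H.prod C3 : Subgroup (G × DihedralGroup 3)).Normal := by
    have hC : C3.Normal := by
      refine ⟨fun x hx g => ?_⟩
      obtain ⟨i, rfl⟩ := mem_C3.1 hx
      rw [mem_C3]
      cases g with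
      | r j => exact ⟨i, by simp⟩
      | sr j => exact ⟨-i, by simp⟩
    exact Subgroup.prod_normal H C3
  obtain ⟨Sb', hSb'⟩ : ∃ S'' : SimpleQuot (toK O (H.prod C3 : Subgroup (G × DihedralGroup 3)) b'),
      S''.n = Sb.n := by
    rw [hb', toK_tw]
    exact tw_simple W.red Sb
  have hFF' : incl O (H.prod C3 : Subgroup (G × DihedralGroup 3)) b' *
      inv' (incl O (H.prod C3 : Subgroup (G × DihedralGroup 3)) b') = 0 := by
    rw [incl_inv', ← map_mul, horth, map_zero]
  have hId : IdExt O b' := by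
    rcases hnil with hnil | ⟨Q, hQn, hQn', hQ, hQH, hnil⟩
    · exact idExt_or O h2 hH' b' hbl' Sb' hFF' (tw_or W b hnil)
    · exact idExt_twQ O h2 b hb Q hQn hQ hQH hnil hH' W hWπ hlam Sb' hFF'
  have hdat : HDat O (H.prod C3 : Subgroup (G × DihedralGroup 3))
      (incl O (H.prod C3 : Subgroup (G × DihedralGroup 3)) b') Sb'.n := fun hz =>
    dat_of' O h2 hH' b' hbl' Sb' hFF' hId hz
  let T' : Subgroup (G × DihedralGroup 3) :=
    { carrier := {g | cj g (incl O (H.prod C3) b') = incl O (H.prod C3) b'}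
      one_mem' := cj_one _
      mul_mem' := by
        intro x y hx hy
        change cj (x * y) (incl O (H.prod C3) b') = incl O (H.prod C3) b'
        rw [← cj_cj, show cj y (incl O (H.prod C3) b') = incl O (H.prod C3) b' from hy,
          show cj x (incl O (H.prod C3) b') = incl O (H.prod C3) b' from hx]
      inv_mem' := by
        intro x hx
        change cj x⁻¹ (incl O (H.prod C3) b') = incl O (H.prod C3) b'
        have h1 : cj x (incl O (H.prod C3) b') = incl O (H.prod C3) b' := hx
        nth_rewrite 1 [← h1]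
        rw [cj_cj, inv_mul_cancel, cj_one] }
  have hT' : ∀ g, g ∈ T' ↔ cj g (incl O (H.prod C3) b') = incl O (H.prod C3) b' :=
    fun g => Iff.rfl
  have hT1 : ∀ g ∈ T', g.2 ∈ C3 ∧ g.1 ∈ T := fun g hg => by
    obtain ⟨h3, h4⟩ := hstab g hg
    exact ⟨h3, (hT _).2 h4⟩
  have hsol' : Group.IsSolvable (T' ⧸ (H.prod C3 : Subgroup (G × DihedralGroup 3)).subgroupOf T') := by
    have hHT : (H.subgroupOf T).Normal := hH.subgroupOf T
    have hHT' : ((H.prod C3 : Subgroup (G × DihedralGroup 3)).subgroupOf T').Normal :=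
      hH'.subgroupOf T'
    let φ : T' →* T :=
      { toFun := fun t => ⟨(t : G × DihedralGroup 3).1, (hT1 t t.2).2⟩
        map_one' := rfl
        map_mul' := fun _ _ => rfl }
    let ψ : T' ⧸ (H.prod C3 : Subgroup (G × DihedralGroup 3)).subgroupOf T' →*
        T ⧸ H.subgroupOf T :=
      QuotientGroup.map _ (H.subgroupOf T) φ (fun t ht => by
        rw [Subgroup.mem_comap, Subgroup.mem_subgroupOf]
        exact (Subgroup.mem_prod.1 (Subgroup.mem_subgroupOf.1 ht)).1)
    have hψ : Function.Injective ψ := by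
      rw [injective_iff_map_eq_one]
      intro y hy
      induction y using QuotientGroup.induction_on with
      | H y =>
        have hy' : ((φ y : T) : T ⧸ H.subgroupOf T) = 1 := hy
        rw [QuotientGroup.eq_one_iff, Subgroup.mem_subgroupOf] at hy'
        rw [QuotientGroup.eq_one_iff, Subgroup.mem_subgroupOf]
        exact Subgroup.mem_prod.2 ⟨hy', (hT1 y y.2).1⟩
    exact Group.isSolvable_of_isSolvable_injective hψ
  exact st_outer O h2 hH' b' hbl' hbr' Sb' hdat hT' hsol' he' her' S' hne'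

/-- The total identity for the projective character. -/
theorem st_pimQ (O : ValuationSubring ℂ) (h2 : (2 : O) ∈ IsLocalRing.maximalIdeal O)
    {G : Type} [Group G] [Fintype G] {H : Subgroup G} (hH : H.Normal) (b : MonoidAlgebra O H)
    (hb : IsBlock b) (hone : OneSimple (toK O H b))
    (hnil : GoodBlock O b)
    {T : Subgroup G} (hT : ∀ g, g ∈ T ↔ cj g (incl O H b) = incl O H b)
    (hsol : Group.IsSolvable (T ⧸ H.subgroupOf T)) {e : MonoidAlgebra O G} (he : IsBlock e)
    (her : inv' e = e) (hone' : OneSimple (toK O G e)) (hne : e * incl O H b ≠ 0)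
    (x : G) (hx : IsDefectClass O e x) (D E : Subgroup G) (hDE : IsDefectPair x D E)
    (hDEne : D ≠ E) (j : MonoidAlgebra O G) (hj : IsPrimitiveIdem j) (hje : j * e = j) :
    (∑ g : G, pim O j (g * g)) / (Nat.card G : ℂ) =
      (Nat.card {y : G // y ∈ E ∧ y ∉ D ∧ y * y = 1} : ℂ) := by
  have halg : IsAlgClosed (resK O) := resK_isAlgClosed O
  obtain ⟨he0, hee, hec, -⟩ := id he
  have hek0 : toK O G e ≠ 0 := fun h => he0 (idem_eq_zero O hee h)
  obtain ⟨S⟩ := simpleQuot_of_oneSimple (toK O G e) hek0 (by rw [← map_mul, hee])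
    (fun y => by
      obtain ⟨y', rfl⟩ := toK_surjective O y
      rw [← map_mul, ← map_mul, hec]) hone'
  have h1 := st_finalQ O h2 hH b hb hone hnil hT hsol he her S hne x D E hx hDE hDEne
  have h3 := sum_coeff_pim O e hee hec S j hj hje
  rw [h1] at h3
  exact mul_left_cancel₀ (Nat.cast_ne_zero.2 S.pos.ne') h3

end Pool.Agent.Helper32.ST
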