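import Pool.Agent.Helper36.NC.M

/-!
# A block with a simple quotient has one simple module
-/

set_option autoImplicit false
open scoped BigOperators MonoidAlgebra
open Classical

set_option linter.unusedSectionVars false

namespace Pool.Agent.Helper32.ST

open Pool.Agent.Helper36.NB Pool.Agent.Helper44.S3 Pool.Agent.Helper36.NC

variable {k : Type} [Field k] {H : Type} [Group H] {b : MonoidAlgebra k H}

/-- The kernel of the simple quotient acts as zero. -/
theorem kill_rep (S : SimpleQuot b) {m : ℕ} (ρ : Representation k H (Fin m → k))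
    (hρ : ρ.IsIrreducible) (h1 : ρ.asAlgebraHom b = 1) (a : MonoidAlgebra k H)
    (ha : S.ρ a = 0) : ρ.asAlgebraHom a = 0 := by
  by_contra hne
  obtain ⟨v, hv⟩ : ∃ v, ρ.asAlgebraHom a v ≠ 0 := by
    by_contra hcon
    push Not at hcon
    exact hne (LinearMap.ext hcon)
  let L : LinearMap.ker S.ρ.toLinearMap →ₗ[k] (Fin m → k) :=
    { toFun := fun y => ρ.asAlgebraHom (y : MonoidAlgebra k H) v
      map_add' := fun y y' => by rw [Submodule.coe_add, map_add, LinearMap.add_apply]
      map_smul' := fun r y => by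
        rw [Submodule.coe_smul, map_smul, LinearMap.smul_apply, RingHom.id_apply] }
  have hL : ∀ y, L y = ρ.asAlgebraHom (y : MonoidAlgebra k H) v := fun y => rfl
  let U : Subrepresentation ρ :=
    { toSubmodule := LinearMap.range L
      apply_mem_toSubmodule := by
        rintro g _ ⟨y, rfl⟩
        refine ⟨⟨el k g * (y : MonoidAlgebra k H), ?_⟩, ?_⟩
        · have h3 : S.ρ (y : MonoidAlgebra k H) = 0 := y.2
          change S.ρ (el k g * (y : MonoidAlgebra k H)) = 0
          rw [map_mul, h3, mul_zero]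
        · rw [hL, hL]
          change ρ.asAlgebraHom (el k g * (y : MonoidAlgebra k H)) v = _
          rw [map_mul, asAlg_el]
          rfl }
  have hU : U = ⊤ := by
    rcases hρ.eq_bot_or_eq_top U with h | h
    · exfalso
      apply hv
      have h3 : ρ.asAlgebraHom a v ∈ U := ⟨⟨a, ha⟩, rfl⟩
      rw [h] at h3
      exact (Submodule.mem_bot k).1 h3
    · exact h
  have hvU : v ∈ U := by
    rw [hU]
    exact Submodule.mem_top
  obtain ⟨y, hy⟩ : ∃ y, L y = v := hvU
  rw [hL] at hy
  obtain ⟨r, hr⟩ := S.nil (y : MonoidAlgebra k H) y.2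
  have hyb : ρ.asAlgebraHom ((y : MonoidAlgebra k H) * b) v = v := by
    rw [map_mul, h1, mul_one, hy]
  have hpow : ∀ r : ℕ, ρ.asAlgebraHom (((y : MonoidAlgebra k H) * b) ^ r) v = v := by
    intro r
    induction r with
    | zero => rw [pow_zero, map_one]; rfl
    | succ r ih =>
      rw [pow_succ, map_mul]
      change ρ.asAlgebraHom (((y : MonoidAlgebra k H) * b) ^ r)
        (ρ.asAlgebraHom ((y : MonoidAlgebra k H) * b) v) = v
      rw [hyb, ih]
  have h0 := hpow r
  rw [hr, map_zero] at h0
  apply hv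
  rw [← h0]
  simp

/-- The standard module is isomorphic to every irreducible module of the block. -/
theorem std_rep (S : SimpleQuot b) {m : ℕ} (ρ : Representation k H (Fin m → k))
    (hρ : ρ.IsIrreducible) (h1 : ρ.asAlgebraHom b = 1) :
    ∃ Φ : (Fin S.n → k) ≃ₗ[k] (Fin m → k), ∀ (h : H) x,
      Φ (Matrix.mulVec (S.ρ (el k h)) x) = ρ h (Φ x) := by
  have hker := kill_rep S ρ hρ h1
  obtain ⟨i0⟩ : Nonempty (Fin S.n) := ⟨⟨0, S.pos⟩⟩
  obtain ⟨σ, hσ⟩ := LinearMap.exists_rightInverse_of_surjective S.ρ.toLinearMap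
    (LinearMap.range_eq_top.2 S.surj)
  have hσ' : ∀ M, S.ρ (σ M) = M := fun M => LinearMap.congr_fun hσ M
  have hEq : ∀ a c, S.ρ a = S.ρ c → ρ.asAlgebraHom a = ρ.asAlgebraHom c := by
    intro a c h
    rw [← sub_eq_zero, ← map_sub]
    exact hker _ (by rw [map_sub, h, sub_self])
  let E : Fin S.n → Fin S.n → Matrix (Fin S.n) (Fin S.n) k := fun i j => Matrix.single i j 1
  -- a vector
  obtain ⟨v, hv⟩ : ∃ v, ρ.asAlgebraHom (σ (E i0 i0)) v ≠ 0 := by
    by_contra hcon
    push Not at hcon
    have h0 : ρ.asAlgebraHom (σ (E i0 i0)) = 0 := LinearMap.ext hcon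
    have h3 : ρ.asAlgebraHom b = 0 := by
      rw [hEq b (∑ j, σ (E j i0) * σ (E i0 i0) * σ (E i0 j)) ?_, map_sum]
      · apply Finset.sum_eq_zero
        intro j _
        rw [map_mul, map_mul, h0, mul_zero, zero_mul]
      · rw [S.one, map_sum]
        have h4 : ∀ j, S.ρ (σ (E j i0) * σ (E i0 i0) * σ (E i0 j)) = E j j := by
          intro j
          rw [map_mul, map_mul, hσ', hσ', hσ']
          simp [E]
        rw [Finset.sum_congr rfl fun j _ => h4 j]
        ext i j
        rw [Matrix.sum_apply, Matrix.one_apply]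
        by_cases h : i = j
        · subst h
          rw [if_pos rfl, Finset.sum_eq_single i]
          · simp [E]
          · intro x _ hx
            simp [E, Matrix.single_apply, hx]
          · intro hx
            exact absurd (Finset.mem_univ _) hx
        · rw [if_neg h]
          symm
          apply Finset.sum_eq_zero
          intro x _
          simp only [E, Matrix.single_apply]
          rw [if_neg]
          rintro ⟨h5, h6⟩
          exact h (h5.symm.trans h6)
    have h5 : (1 : Module.End k (Fin m → k)) = 0 := by rw [← h1, h3]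
    have hnt : Nontrivial (Fin m → k) := by
      by_contra hcon2
      rw [not_nontrivial_iff_subsingleton] at hcon2
      have := hρ.toNontrivial
      obtain ⟨x, y, hxy⟩ := this
      apply hxy
      ext v
      have hv0 : v = 0 := Subsingleton.elim _ _
      rw [hv0]
      exact ⟨fun _ => y.toSubmodule.zero_mem, fun _ => x.toSubmodule.zero_mem⟩
    exact one_ne_zero h5
  set v0 := ρ.asAlgebraHom (σ (E i0 i0)) v with hv0
  have hv00 : ρ.asAlgebraHom (σ (E i0 i0)) v0 = v0 := by
    rw [hv0]
    change (ρ.asAlgebraHom (σ (E i0 i0)) * ρ.asAlgebraHom (σ (E i0 i0))) v = _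
    rw [← map_mul]
    rw [hEq (σ (E i0 i0) * σ (E i0 i0)) (σ (E i0 i0)) (by rw [map_mul, hσ']; simp [E])]
  let col : (Fin S.n → k) →ₗ[k] Matrix (Fin S.n) (Fin S.n) k :=
    { toFun := fun x => Matrix.of fun i j => if j = i0 then x i else 0
      map_add' := fun x y => by
        ext i j
        by_cases h : j = i0 <;> simp [h]
      map_smul' := fun r x => by
        ext i j
        by_cases h : j = i0 <;> simp [h] }
  have hcol : ∀ M x, M * col x = col (Matrix.mulVec M x) := by
    intro M x
    ext i j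
    by_cases h : j = i0
    · simp [col, Matrix.mul_apply, Matrix.mulVec, dotProduct, h]
    · simp [col, Matrix.mul_apply, h]
  have hcolE : col (Pi.single i0 1) = E i0 i0 := by
    ext i j
    by_cases h : j = i0
    · subst h
      by_cases h' : i = j
      · subst h'; simp [col, E]
      · simp [col, E, h', Ne.symm h']
    · simp [col, E, h, Ne.symm h]
  let Φ0 : (Fin S.n → k) →ₗ[k] (Fin m → k) :=
    { toFun := fun x => ρ.asAlgebraHom (σ (col x)) v0
      map_add' := fun x y => by rw [map_add, map_add, map_add, LinearMap.add_apply]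
      map_smul' := fun r x => by
        rw [map_smul, map_smul, map_smul, LinearMap.smul_apply, RingHom.id_apply] }
  have hΦ : ∀ x, Φ0 x = ρ.asAlgebraHom (σ (col x)) v0 := fun x => rfl
  have hact : ∀ a x, Φ0 (Matrix.mulVec (S.ρ a) x) = ρ.asAlgebraHom a (Φ0 x) := by
    intro a x
    rw [hΦ, hΦ, ← hcol]
    change _ = (ρ.asAlgebraHom a * ρ.asAlgebraHom (σ (col x))) v0
    rw [← map_mul]
    rw [hEq (σ (S.ρ a * col x)) (a * σ (col x)) (by rw [hσ', map_mul, hσ'])]
  have hone : Φ0 (Pi.single i0 1) = v0 := by rw [hΦ, hcolE, hv00]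
  have hinj : Function.Injective Φ0 := by
    rw [injective_iff_map_eq_zero]
    intro x hx
    by_contra hne
    obtain ⟨i, hi⟩ : ∃ i, x i ≠ 0 := by
      by_contra hcon
      push Not at hcon
      exact hne (funext hcon)
    have h3 := hact (σ (Matrix.of fun j l => if l = i then (Pi.single i0 (1 : k) : Fin S.n → k) j *
      (x i)⁻¹ else 0)) x
    rw [hx, map_zero, hσ'] at h3
    have h4 : Matrix.mulVec (Matrix.of fun j l => if l = i then
        (Pi.single i0 (1 : k) : Fin S.n → k) j * (x i)⁻¹ else 0) x = Pi.single i0 1 := by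
      funext j
      simp [Matrix.mulVec, dotProduct, hi]
    rw [h4, hone] at h3
    exact hv h3
  have hsurj : Function.Surjective Φ0 := by
    let U : Subrepresentation ρ :=
      { toSubmodule := LinearMap.range Φ0
        apply_mem_toSubmodule := by
          rintro g _ ⟨x, rfl⟩
          refine ⟨Matrix.mulVec (S.ρ (el k g)) x, ?_⟩
          rw [hact, asAlg_el] }
    have hU : U = ⊤ := by
      rcases hρ.eq_bot_or_eq_top U with h | h
      · exfalso
        apply hv
        have h3 : v0 ∈ U := ⟨_, hone⟩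
        rw [h] at h3
        exact (Submodule.mem_bot k).1 h3
      · exact h
    intro w
    have hw : w ∈ U := by
      rw [hU]
      exact Submodule.mem_top
    exact hw
  refine ⟨LinearEquiv.ofBijective Φ0 ⟨hinj, hsurj⟩, ?_⟩
  intro h x
  change Φ0 _ = ρ h (Φ0 x)
  rw [hact, asAlg_el]

theorem oneSimple_of_simpleQuot (S : SimpleQuot b) : OneSimple b := by
  intro m n ρ σ hρ hσ h1 h2
  obtain ⟨Φ, hΦ⟩ := std_rep S ρ hρ h1
  obtain ⟨Ψ, hΨ⟩ := std_rep S σ hσ h2
  let T : (Fin m → k) →ₗ[k] (Fin n → k) := Ψ.toLinearMap ∘ₗ Φ.symm.toLinearMap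
  have hT : ∀ v, T v = Ψ (Φ.symm v) := fun v => rfl
  have hTg : ∀ (g : H) v, T (ρ g v) = σ g (T v) := by
    intro g v
    obtain ⟨x, rfl⟩ := Φ.surjective v
    rw [hT, hT, ← hΦ, Φ.symm_apply_apply, Φ.symm_apply_apply, hΨ]
  let F : Representation.IntertwiningMap ρ σ :=
    LinearMap.intertwiningMap_of_isIntertwiningMap ρ σ T hTg
  have hF : Function.Bijective F := by
    constructor
    · intro v w hvw
      have h3 : T v = T w := hvw
      rw [hT, hT] at h3
      exact Φ.symm.injective (Ψ.injective h3)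
    · intro w
      refine ⟨Φ (Ψ.symm w), ?_⟩
      change T _ = w
      rw [hT, Φ.symm_apply_apply, Ψ.apply_symm_apply]
  exact ⟨F.ofBijective hF⟩

end Pool.Agent.Helper32.ST
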