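import Pool.Agent.Helper36.ST.Defs
import Pool.Agent.Helper36.NC.N6

/-!
# The extensions of degree two of a nilpotent block
-/

set_option autoImplicit false
open scoped BigOperators MonoidAlgebra
open Classical

set_option linter.unusedSectionVars false
set_option linter.unusedVariables false

namespace Pool.Agent.Helper32.ST

open Pool.Agent.Helper36.ST Pool.Agent.Helper36.NB Pool.Agent.Helper44.S3 Pool.Agent.Helper36.NC
open Pool.Agent.Helper32.NO (Lev NilpotentPairs prR)

/-- A defect group exists. -/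
theorem exists_defGroup (O : ValuationSubring ℂ) {A : Type} [Group A] [Fintype A]
    (b : MonoidAlgebra O A) (hb : toK O A b ≠ 0) : ∃ P, IsDefGroup O b P := by
  let S := {P : Subgroup A // IsPGroup 2 P ∧
    res (Subgroup.centralizer (P : Set A)) (toK O A b) ≠ 0}
  have hne : Nonempty S := by
    refine ⟨⟨⊥, IsPGroup.of_bot, ?_⟩⟩
    intro h
    apply hb
    ext g
    have hg : g ∈ Subgroup.centralizer ((⊥ : Subgroup A) : Set A) := by
      rw [Subgroup.mem_centralizer_iff]
      intro u hu
      have : u = 1 := by simpa using hu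
      rw [this, one_mul, mul_one]
    have h3 := congrArg (fun y => y.coeff (⟨g, hg⟩ : Subgroup.centralizer _)) h
    simp only [Pool.Agent.Helper36.NB.res_coeff] at h3
    exact h3
  have : Finite S := by infer_instance
  obtain ⟨P, hP⟩ := Finite.exists_max (fun P : S => Nat.card P.1)
  refine ⟨P.1, P.2.1, P.2.2, ?_⟩
  intro P1 hle h1 h2
  symm
  apply Subgroup.eq_of_le_of_card_ge hle
  exact hP ⟨P1, h1, h2⟩

theorem incl_mp {R : Type} [CommRing R] {G : Type} [Group G] {H K : Subgroup G} (hle : H ≤ K)
    (b : MonoidAlgebra R H) : incl R K (mp R (Subgroup.inclusion hle) b) = incl R H b := by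
  induction b using MonoidAlgebra.induction_linear with
  | zero => simp only [map_zero]
  | add x y hx hy => simp only [map_add, hx, hy]
  | single h r =>
    rw [mp_single, incl_single, incl_single]
    rfl

section ext

variable (O : ValuationSubring ℂ) (h2 : (2 : O) ∈ IsLocalRing.maximalIdeal O)
  {G : Type} [Group G] [Fintype G] {H : Subgroup G} (hH : H.Normal) (b : MonoidAlgebra O H)
  (hb : IsBlock b) (hFF : incl O H b * inv' (incl O H b) = 0) {K : Subgroup G} (hle : H ≤ K)
  (hrel : H.relIndex K = 2)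
  (hc : ∀ k ∈ K, k ∉ H → cj k (incl O H b) = inv' (incl O H b))

include h2 hH hb hFF hle hrel hc

theorem ext_facts : (Subgroup.inclusion hle).range = H.subgroupOf K ∧
    (H.subgroupOf K).index = 2 ∧
    incl O (H.subgroupOf K) (trE hle O b) = mp O (Subgroup.inclusion hle) b ∧
    res K (incl O H b + inv' (incl O H b)) =
      mp O (Subgroup.inclusion hle) b + inv' (mp O (Subgroup.inclusion hle) b) ∧
    mp O (Subgroup.inclusion hle) b * inv' (mp O (Subgroup.inclusion hle) b) = 0 ∧
    (∀ g, g ∉ H.subgroupOf K → cj g (mp O (Subgroup.inclusion hle) b) =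
      inv' (mp O (Subgroup.inclusion hle) b)) ∧
    (∃ g, g ∉ H.subgroupOf K) := by
  have h1 : (Subgroup.inclusion hle).range = H.subgroupOf K := by
    ext g
    constructor
    · rintro ⟨h, rfl⟩
      exact Subgroup.mem_subgroupOf.2 h.2
    · intro hg
      exact ⟨⟨g, Subgroup.mem_subgroupOf.1 hg⟩, rfl⟩
  have h3 : (H.subgroupOf K).index = 2 := hrel
  have hinc : incl O K (mp O (Subgroup.inclusion hle) b) = incl O H b := incl_mp hle b
  have h4 : incl O (H.subgroupOf K) (trE hle O b) = mp O (Subgroup.inclusion hle) b := by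
    apply incl_injective K
    rw [incl_incl, hinc]
  have hinc' : incl O K (inv' (mp O (Subgroup.inclusion hle) b)) = inv' (incl O H b) := by
    rw [← incl_inv', hinc]
  have h5 : res K (incl O H b + inv' (incl O H b)) =
      mp O (Subgroup.inclusion hle) b + inv' (mp O (Subgroup.inclusion hle) b) := by
    rw [← hinc', ← hinc, ← map_add, res_incl]
  have h6 : mp O (Subgroup.inclusion hle) b * inv' (mp O (Subgroup.inclusion hle) b) = 0 := by
    apply incl_injective K
    rw [map_mul, hinc, hinc', hFF, map_zero]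
  have h7 : ∀ g, g ∉ H.subgroupOf K → cj g (mp O (Subgroup.inclusion hle) b) =
      inv' (mp O (Subgroup.inclusion hle) b) := by
    intro g hg
    apply incl_injective K
    rw [← incl_cj', hinc, hinc']
    exact hc g g.2 (fun h => hg (Subgroup.mem_subgroupOf.2 h))
  refine ⟨h1, h3, h4, h5, h6, h7, ?_⟩
  by_contra hcon
  push Not at hcon
  have h8 : H.subgroupOf K = ⊤ := by
    rw [eq_top_iff]
    intro g _
    exact hcon g
  rw [h8, Subgroup.index_top] at h3
  omega

/-- The block of `K` has one simple module. -/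
theorem ext_simple (hone : OneSimple (toK O H b)) :
    Nonempty (SimpleQuot (toK O K (mp O (Subgroup.inclusion hle) b +
      inv' (mp O (Subgroup.inclusion hle) b)))) := by
  obtain ⟨h1, h3, h4, h5, h6, h7, z, hz⟩ := ext_facts O h2 hH b hb hFF hle hrel hc
  have halg : IsAlgClosed (resK O) := resK_isAlgClosed O
  have hHn : (H.subgroupOf K).Normal := hH.subgroupOf K
  have hblK : IsBlock (trE hle O b) := isBlock_trE hle hb
  have hbl := isBlock_two (trE hle O b) hblK (by rw [h4]; exact h6) (by rw [h4]; exact h7)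
    ⟨z, hz⟩
  rw [h4] at hbl
  obtain ⟨he0, he, hec, -⟩ := id hbl
  set e := mp O (Subgroup.inclusion hle) b + inv' (mp O (Subgroup.inclusion hle) b) with hedef
  have hk0 : toK O K e ≠ 0 := fun h => he0 (idem_eq_zero O he h)
  apply simpleQuot_of_oneSimple (toK O K e) hk0 (by rw [← map_mul, he])
    (fun y => by
      obtain ⟨y', rfl⟩ := toK_surjective O y
      rw [← map_mul, ← map_mul, hec])
  obtain ⟨-, hbb, hbc, -⟩ := id hblK
  have hbbk : toK O (H.subgroupOf K) (trE hle O b) * toK O (H.subgroupOf K) (trE hle O b) =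
      toK O (H.subgroupOf K) (trE hle O b) := by rw [← map_mul, hbb]
  have hbck : ∀ a, a * toK O (H.subgroupOf K) (trE hle O b) =
      toK O (H.subgroupOf K) (trE hle O b) * a := by
    intro a
    obtain ⟨a', rfl⟩ := toK_surjective O a
    rw [← map_mul, ← map_mul, hbc]
  have hcase : ∀ g, g ∈ H.subgroupOf K ∨ z⁻¹ * g ∈ H.subgroupOf K := by
    intro g
    by_cases hg : g ∈ H.subgroupOf K
    · exact Or.inl hg
    · right
      have h9 := (Subgroup.mul_mem_iff_of_index_two h3 (a := z⁻¹) (b := g)).2
        (by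
          constructor
          · intro h
            exact absurd (by simpa using (H.subgroupOf K).inv_mem h) hz
          · intro h
            exact absurd h hg)
      exact h9
  have hzz : z * z ∈ H.subgroupOf K := by
    apply (Subgroup.mul_mem_iff_of_index_two h3 (a := z) (b := z)).2
    exact Iff.rfl
  have hincl : toK O K e = incl (resK O) (H.subgroupOf K) (toK O _ (trE hle O b)) +
      cj z (incl (resK O) (H.subgroupOf K) (toK O _ (trE hle O b))) := by
    rw [← toK_incl, h4, ← toK_cj, h7 z hz, ← map_add]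
  rw [hincl]
  have hFFk : toK O K (mp O (Subgroup.inclusion hle) b) *
      toK O K (inv' (mp O (Subgroup.inclusion hle) b)) = 0 := by
    rw [← map_mul, h6, map_zero]
  have hFFk' : toK O K (inv' (mp O (Subgroup.inclusion hle) b)) *
      toK O K (mp O (Subgroup.inclusion hle) b) = 0 := by
    rw [← map_mul, ← mp_inv, ← map_mul]
    obtain ⟨-, -, hbc0, -⟩ := id hb
    rw [hbc0, map_mul, mp_inv, h6, map_zero]
  refine oneSimple_two z hcase hzz (fun h hh => ?_) _ hbbk hbck ?_ ?_ ?_
  · have h9 := hHn.conj_mem h hh z⁻¹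
    rwa [inv_inv] at h9
  · rw [← toK_incl, h4, ← toK_cj, h7 z hz]
    exact hFFk
  · rw [← toK_incl, h4, ← toK_cj, h7 z hz]
    exact hFFk'
  · rw [toK_trE]
    exact oneSimple_tr (Subgroup.subgroupOfEquivOfLe hle).symm hone

end ext

theorem idExt_nil (O : ValuationSubring ℂ) (h2 : (2 : O) ∈ IsLocalRing.maximalIdeal O)
    {G : Type} [Group G] [Fintype G] {H : Subgroup G} (hH : H.Normal) (b : MonoidAlgebra O H)
    (hb : IsBlock b) (hFF : incl O H b * inv' (incl O H b) = 0)
    (hnil : ∀ P : Subgroup H, IsDefGroup O b P → NilpotentPairs P (toK O H b)) :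
    IdExt O b := by
  intro K hle hrel hc
  obtain ⟨h1, h3, h4, h5, h6, h7, z, hz⟩ := ext_facts O h2 hH b hb hFF hle hrel hc
  have halg : IsAlgClosed (resK O) := resK_isAlgClosed O
  obtain ⟨hb0, hbb, hbc, -⟩ := id hb
  have hbk0 : toK O H b ≠ 0 := fun h => hb0 (idem_eq_zero O hbb h)
  obtain ⟨P0, hP0⟩ := exists_defGroup O b hbk0
  have hone : OneSimple (toK O H b) := (hnil P0 hP0).simple
  obtain ⟨Sb⟩ := simpleQuot_of_oneSimple (toK O H b) hbk0 (by rw [← map_mul, hbb])
    (fun y => by
      obtain ⟨y', rfl⟩ := toK_surjective O y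
      rw [← map_mul, ← map_mul, hbc]) hone
  obtain ⟨SK⟩ := ext_simple O h2 hH b hb hFF hle hrel hc hone
  rw [h5]
  refine ⟨SK, ?_⟩
  intro w P Q hw hPQ hne
  have hHn : (H.subgroupOf K).Normal := hH.subgroupOf K
  have hblK : IsBlock (trE hle O b) := isBlock_trE hle hb
  have hbl := isBlock_two (trE hle O b) hblK (by rw [h4]; exact h6) (by rw [h4]; exact h7)
    ⟨z, hz⟩
  rw [h4] at hbl
  obtain ⟨he0, he, hec, -⟩ := id hbl
  -- an element of `Q ∖ P`
  obtain ⟨t, ht, ht'⟩ : ∃ t ∈ Q, t ∉ P := by
    by_contra hcon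
    push Not at hcon
    exact hne (le_antisymm hPQ.1 hcon)
  -- the number
  have hval : Sb.n.factorization 2 + (Nat.card P).factorization 2 =
      (Nat.card H).factorization 2 := by
    obtain ⟨SbK, hSbK⟩ : ∃ S' : SimpleQuot (toK O (H.subgroupOf K) (trE hle O b)),
        S'.n = Sb.n := by
      rw [toK_trE]
      exact ⟨sqE hle Sb, rfl⟩
    have hw' := hw
    rw [← h4] at hw'
    obtain ⟨SK', -⟩ : ∃ S' : SimpleQuot (toK O K (incl O (H.subgroupOf K) (trE hle O b) +
        inv' (incl O (H.subgroupOf K) (trE hle O b)))), S'.n = SK.n := by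
      rw [h4]
      exact ⟨SK, rfl⟩
    obtain ⟨-, h9⟩ := two_num O h2 h3 (trE hle O b) hblK SbK (by rw [h4]; exact h6)
      (by rw [h4]; exact h7) SK' hw' (pair_real hPQ hne) hPQ.2.2.2.1
    have h10 : Nat.card (H.subgroupOf K) = Nat.card H :=
      Nat.card_congr (Subgroup.subgroupOfEquivOfLe hle).toEquiv
    rw [← hSbK, h9, h10]
  obtain ⟨q, hL⟩ := exists_lev_two O h2 (i := Subgroup.inclusion hle)
    (Subgroup.inclusion_injective hle) (by rw [h1]; exact hHn)
    (fun g h hg hh => by
      rw [h1] at hg hh ⊢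
      exact (Subgroup.mul_mem_iff_of_index_two h3).2 (by tauto)) b hb Sb
    (mp O (Subgroup.inclusion hle) b) rfl (fun g hg => h7 g (by rw [← h1]; exact hg)) h6 hnil SK
    hw hPQ t ht ht' hval
  rw [total_lev h2 hL, card_coset hPQ ht ht']

end Pool.Agent.Helper32.ST
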