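import Pool.Agent.Helper32.ST.U1
import Pool.Agent.Helper32.ST.OS

/-!
# The extensions of degree two of a block which is nilpotent modulo a normal `2`-subgroup
-/

set_option autoImplicit false
open scoped BigOperators MonoidAlgebra
open Classical

set_option linter.unusedSectionVars false
set_option linter.unusedVariables false

namespace Pool.Agent.Helper32.ST

open Pool.Agent.Helper36.ST Pool.Agent.Helper36.NB Pool.Agent.Helper44.S3 Pool.Agent.Helper36.NC
open Pool.Agent.Helper32.NO (Lev NilpotentPairs prR)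
open Pool.Agent.Helper32.ND (supp_cent pr)
open Pool.Agent.Helper44.NO (quot_block block_of_simple exists_S1 prR_surj toK_pr)

/-- The total sum from the orbit-wise identities. -/
theorem sum_of_orb (O : ValuationSubring ℂ) {G : Type} [Group G] [Fintype G]
    (h2 : (2 : O) ∈ IsLocalRing.maximalIdeal O) (e : MonoidAlgebra O G) (he : e * e = e)
    (hec : ∀ a, a * e = e * a) (S : SimpleQuot (toK O G e)) (D E : Subgroup G)
    (horb : ∀ u : G, u * u = 1 → Orb O e S.n D E u) :
    ∑ g : G, ((e.coeff (g * g) : O) : ℂ) =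
      S.n * (Nat.card {y : G // y ∈ E ∧ y ∉ D ∧ y * y = 1} : ℂ) := by
  obtain ⟨j, hj, hje, hj1⟩ := exists_rank_one O e he hec S
  have hprim := Pool.Agent.Helper36.NC.prim_of_rank_one O S hj hje hj1
  rw [← sum_coeff_pim O e he hec S j hprim hje,
    (final_of_orb O h2 e he hec S j hprim hje D E horb).1]

section quot

variable {G : Type} [Group G] {H K Q : Subgroup G} (hle : H ≤ K) (hQH : Q ≤ H)
  [(Q.subgroupOf H).Normal] [(Q.subgroupOf K).Normal]

/-- The embedding of the quotients. -/
noncomputable def qmap : (H ⧸ Q.subgroupOf H) →* (K ⧸ Q.subgroupOf K) :=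
  QuotientGroup.map (Q.subgroupOf H) (Q.subgroupOf K) (Subgroup.inclusion hle)
    (fun h hh => Subgroup.mem_comap.2 (Subgroup.mem_subgroupOf.2 (Subgroup.mem_subgroupOf.1 hh)))

theorem qmap_mk (h : H) : qmap (Q := Q) hle (h : H ⧸ Q.subgroupOf H) =
    ((Subgroup.inclusion hle h : K) : K ⧸ Q.subgroupOf K) := rfl

theorem qmap_injective : Function.Injective (qmap (Q := Q) hle) := by
  rw [injective_iff_map_eq_one]
  intro a ha
  induction a using QuotientGroup.induction_on with
  | H h =>
    rw [qmap_mk, QuotientGroup.eq_one_iff] at ha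
    rw [QuotientGroup.eq_one_iff]
    exact Subgroup.mem_subgroupOf.2 (Subgroup.mem_subgroupOf.1 ha)

include hQH in
theorem mem_qrange (g : K) : (g : K ⧸ Q.subgroupOf K) ∈ (qmap (Q := Q) hle).range ↔
    g ∈ H.subgroupOf K := by
  constructor
  · rintro ⟨a, ha⟩
    induction a using QuotientGroup.induction_on with
    | H h =>
      rw [qmap_mk, QuotientGroup.eq] at ha
      have h1 := Subgroup.mem_subgroupOf.1 ha
      rw [Subgroup.mem_subgroupOf]
      have h3 : ((g : K) : G) = (h : G) * (((Subgroup.inclusion hle h)⁻¹ * g : K) : G) := by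
        change (g : G) = (h : G) * ((h : G)⁻¹ * g)
        group
      rw [h3]
      exact H.mul_mem h.2 (hQH h1)
  · intro hg
    exact ⟨((⟨g, Subgroup.mem_subgroupOf.1 hg⟩ : H) : H ⧸ Q.subgroupOf H), rfl⟩

theorem prR_mp {R : Type} [CommRing R] (b : MonoidAlgebra R H) :
    prR R (Q.subgroupOf K) (mp R (Subgroup.inclusion hle) b) =
      mp R (qmap (Q := Q) hle) (prR R (Q.subgroupOf H) b) := by
  induction b using MonoidAlgebra.induction_linear with
  | zero => simp only [map_zero]
  | add x y hx hy => simp only [map_add, hx, hy]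
  | single h r =>
    unfold prR mp
    rw [MonoidAlgebra.mapDomainRingHom_apply, MonoidAlgebra.mapDomainRingHom_apply,
      MonoidAlgebra.mapDomainRingHom_apply, MonoidAlgebra.mapDomainRingHom_apply,
      MonoidAlgebra.mapDomain_single, MonoidAlgebra.mapDomain_single,
      MonoidAlgebra.mapDomain_single, MonoidAlgebra.mapDomain_single]
    rfl

end quot

theorem prR_inv {R : Type} [CommRing R] {G : Type} [Group G] (Q : Subgroup G) [Q.Normal]
    (x : MonoidAlgebra R G) : prR R Q (inv' x) = inv' (prR R Q x) :=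
  mp_inv (QuotientGroup.mk' Q) x

theorem prR_cj {R : Type} [CommRing R] {G : Type} [Group G] (Q : Subgroup G) [Q.Normal]
    (g : G) (x : MonoidAlgebra R G) : prR R Q (cj g x) = cj (g : G ⧸ Q) (prR R Q x) :=
  mp_cj (QuotientGroup.mk' Q) g x

theorem idExt_nilQ (O : ValuationSubring ℂ) (h2 : (2 : O) ∈ IsLocalRing.maximalIdeal O)
    {G : Type} [Group G] [Fintype G] {H : Subgroup G} (hH : H.Normal) (b : MonoidAlgebra O H)
    (hb : IsBlock b) (Sb : SimpleQuot (toK O H b)) (hFF : incl O H b * inv' (incl O H b) = 0)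
    (Q : Subgroup G) (hQn : Q.Normal) (hQ : IsPGroup 2 Q) (hQH : Q ≤ H)
    [(Q.subgroupOf H).Normal]
    (hnil : ∀ P : Subgroup (H ⧸ Q.subgroupOf H), IsDefGroup O (prR O (Q.subgroupOf H) b) P →
      NilpotentPairs P (toK O _ (prR O (Q.subgroupOf H) b))) :
    IdExt O b := by
  intro K hle hrel hc
  obtain ⟨h1, h3, h4, h5, h6, h7, z, hz⟩ := ext_facts O h2 hH b hb hFF hle hrel hc
  have halg : IsAlgClosed (resK O) := resK_isAlgClosed O
  obtain ⟨hb0, hbb, hbc, -⟩ := id hb
  have hbk0 : toK O H b ≠ 0 := fun h => hb0 (idem_eq_zero O hbb h)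
  have hbbk : toK O H b * toK O H b = toK O H b := by rw [← map_mul, hbb]
  have hbck : ∀ a, a * toK O H b = toK O H b * a := by
    intro a
    obtain ⟨a', rfl⟩ := toK_surjective O a
    rw [← map_mul, ← map_mul, hbc]
  have hone : OneSimple (toK O H b) := oneSimple_of_simpleQuot Sb
  obtain ⟨SK⟩ := ext_simple O h2 hH b hb hFF hle hrel hc hone
  rw [h5]
  refine ⟨SK, ?_⟩
  intro w P Q' hw hPQ hne
  have hHn : (H.subgroupOf K).Normal := hH.subgroupOf K
  have hQKn : (Q.subgroupOf K).Normal := hQn.subgroupOf K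
  have hblK : IsBlock (trE hle O b) := isBlock_trE hle hb
  have hbl := isBlock_two (trE hle O b) hblK (by rw [h4]; exact h6) (by rw [h4]; exact h7)
    ⟨z, hz⟩
  rw [h4] at hbl
  obtain ⟨he0, he, hec, -⟩ := id hbl
  have her : inv' (mp O (Subgroup.inclusion hle) b + inv' (mp O (Subgroup.inclusion hle) b)) =
      mp O (Subgroup.inclusion hle) b + inv' (mp O (Subgroup.inclusion hle) b) := by
    rw [inv'_add, inv'_inv', add_comm]
  have hQK2 : IsPGroup 2 (Q.subgroupOf K) := by
    rw [Subgroup.subgroupOf]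
    exact hQ.comap_subtype
  have hQH2 : IsPGroup 2 (Q.subgroupOf H) := by
    rw [Subgroup.subgroupOf]
    exact hQ.comap_subtype
  have hQKH : Q.subgroupOf K ≤ H.subgroupOf K := fun g hg =>
    Subgroup.mem_subgroupOf.2 (hQH (Subgroup.mem_subgroupOf.1 hg))
  -- an element of `Q' ∖ P`
  obtain ⟨t, ht, ht'⟩ : ∃ t ∈ Q', t ∉ P := by
    by_contra hcon
    push Not at hcon
    exact hne (le_antisymm hPQ.1 hcon)
  -- the normal subgroup is contained in the defect group
  have hww0 : (mp O (Subgroup.inclusion hle) b +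
      inv' (mp O (Subgroup.inclusion hle) b)).coeff w ≠ 0 := by
    intro h
    apply hw.2.1
    rw [h, map_zero]
  have hQP : Q.subgroupOf K ≤ P := by
    have hcent : Q.subgroupOf K ≤ cent w := by
      intro q hq
      rw [Subgroup.mem_centralizer_singleton_iff]
      exact supp_cent O h2 _ he hec SK (Q.subgroupOf K) hQK2 w hww0 q hq
    have hsup : IsPGroup 2 (P ⊔ Q.subgroupOf K : Subgroup K) :=
      (IsPGroup.of_card hPQ.2.2.2.1).to_sup_of_normal_right hQK2
    have hle' : P ⊔ Q.subgroupOf K ≤ cent w := sup_le hPQ.2.1 hcent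
    have hcardle : Nat.card (P ⊔ Q.subgroupOf K : Subgroup K) ≤ Nat.card P := by
      obtain ⟨m, hm⟩ := IsPGroup.iff_card.mp hsup
      have hdvd : Nat.card (P ⊔ Q.subgroupOf K : Subgroup K) ∣ Nat.card (cent w) :=
        Subgroup.card_dvd_of_le hle'
      rw [hm, hPQ.2.2.2.1]
      apply Nat.pow_le_pow_right (by norm_num)
      rw [← Nat.Prime.pow_dvd_iff_le_factorization Nat.prime_two Nat.card_pos.ne', ← hm]
      exact hdvd
    have heq := Subgroup.eq_of_le_of_card_ge (le_sup_left : P ≤ P ⊔ Q.subgroupOf K) hcardle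
    rw [heq]
    exact le_sup_right
  -- the number
  have hcardH : Nat.card (H.subgroupOf K) = Nat.card H :=
    Nat.card_congr (Subgroup.subgroupOfEquivOfLe hle).toEquiv
  have hval : Sb.n.factorization 2 + (Nat.card P).factorization 2 =
      (Nat.card H).factorization 2 := by
    obtain ⟨SbK, hSbK⟩ : ∃ S' : SimpleQuot (toK O (H.subgroupOf K) (trE hle O b)),
        S'.n = Sb.n := by
      rw [toK_trE]
      exact ⟨sqE hle Sb, rfl⟩
    have hw' := hw
    rw [← h4] at hw'
    obtain ⟨SK', -⟩ : ∃ S' : SimpleQuot (toK O K (incl O (H.subgroupOf K) (trE hle O b) +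
        inv' (incl O (H.subgroupOf K) (trE hle O b)))), S'.n = SK.n := by
      rw [h4]
      exact ⟨SK, rfl⟩
    obtain ⟨-, h9⟩ := two_num O h2 h3 (trE hle O b) hblK SbK (by rw [h4]; exact h6)
      (by rw [h4]; exact h7) SK' hw' (pair_real hPQ hne) hPQ.2.2.2.1
    rw [← hSbK, h9, hcardH]
  -- the quotients
  let _ : Fintype (K ⧸ Q.subgroupOf K) := Fintype.ofFinite _
  let _ : Fintype (H ⧸ Q.subgroupOf H) := Fintype.ofFinite _
  obtain ⟨hbq, hrq, ⟨S1, hS1⟩, hwq, hPQq⟩ := quot_block h2 _ hbl her SK w hw P Q' hPQ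
    (Q.subgroupOf K) hQP
  set bb := prR O (Q.subgroupOf H) b with hbb'
  have hpr : pr O (Q.subgroupOf K) (mp O (Subgroup.inclusion hle) b +
      inv' (mp O (Subgroup.inclusion hle) b)) =
      mp O (qmap (Q := Q) hle) bb + inv' (mp O (qmap (Q := Q) hle) bb) := by
    have h9 : ∀ x, pr O (Q.subgroupOf K) x = prR O (Q.subgroupOf K) x := fun x => rfl
    rw [h9, map_add, prR_inv, prR_mp]
  obtain ⟨S2, hS2⟩ : ∃ S' : SimpleQuot (toK O (K ⧸ Q.subgroupOf K)
      (mp O (qmap (Q := Q) hle) bb + inv' (mp O (qmap (Q := Q) hle) bb))), S'.n = SK.n := by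
    rw [← hpr]
    exact ⟨S1, hS1⟩
  rw [hpr] at hbq hrq hwq
  have hneq : P.map (QuotientGroup.mk' (Q.subgroupOf K)) ≠
      Q'.map (QuotientGroup.mk' (Q.subgroupOf K)) := by
    intro h
    apply hne
    apply le_antisymm hPQ.1
    intro g hg
    rw [← Pool.Agent.Helper32.ND.mem_map_mk (Q.subgroupOf K) P hQP, h,
      Pool.Agent.Helper32.ND.mem_map_mk (Q.subgroupOf K) Q' (hQP.trans hPQ.1)]
    exact hg
  -- the block of the quotient of `H`
  have hbb2 : bb * bb = bb := by rw [hbb', ← map_mul, hbb]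
  have hbbc : ∀ a, a * bb = bb * a := by
    intro a
    obtain ⟨a', rfl⟩ := prR_surj (Q.subgroupOf H) a
    rw [hbb', ← map_mul, hbc, map_mul]
  have hbbk' : toK O (H ⧸ Q.subgroupOf H) bb = prR (resK O) (Q.subgroupOf H) (toK O H b) :=
    toK_pr (Q.subgroupOf H) b
  obtain ⟨ρ1, hρ1⟩ := exists_S1 h2 b Sb (Q.subgroupOf H) hQH2
  let Sbb : SimpleQuot (toK O (H ⧸ Q.subgroupOf H) bb) :=
    { n := Sb.n
      ρ := ρ1
      pos := Sb.pos
      surj := by
        intro M
        obtain ⟨a, rfl⟩ := Sb.surj M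
        exact ⟨_, hρ1 a⟩
      one := by rw [hbbk', hρ1, Sb.one]
      nil := by
        intro a ha
        obtain ⟨a', rfl⟩ := prR_surj (Q.subgroupOf H) a
        rw [hρ1] at ha
        have h9 := (Sb.nil a' ha).map (prR (resK O) (Q.subgroupOf H))
        rwa [map_mul, ← hbbk'] at h9 }
  have hbbl : IsBlock bb := block_of_simple bb hbb2 hbbc Sbb
  have hFm : mp O (qmap (Q := Q) hle) bb =
      prR O (Q.subgroupOf K) (mp O (Subgroup.inclusion hle) b) := by rw [prR_mp]
  have hFFq : mp O (qmap (Q := Q) hle) bb * inv' (mp O (qmap (Q := Q) hle) bb) = 0 := by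
    rw [hFm, ← prR_inv, ← map_mul, h6, map_zero]
  have hcq : ∀ g, g ∉ (qmap (Q := Q) hle).range → cj g (mp O (qmap (Q := Q) hle) bb) =
      inv' (mp O (qmap (Q := Q) hle) bb) := by
    intro g hg
    induction g using QuotientGroup.induction_on with
    | H g =>
      rw [mem_qrange hle hQH] at hg
      rw [hFm, ← prR_cj, h7 g hg, prR_inv]
  have hrn : (qmap (Q := Q) hle).range.Normal := by
    constructor
    intro n hn g
    induction n using QuotientGroup.induction_on with
    | H n =>
      induction g using QuotientGroup.induction_on with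
      | H g =>
        rw [mem_qrange hle hQH] at hn
        rw [← QuotientGroup.mk_inv, ← QuotientGroup.mk_mul, ← QuotientGroup.mk_mul,
          mem_qrange hle hQH]
        exact hHn.conj_mem n hn g
  have hidx : ∀ g h : K ⧸ Q.subgroupOf K, g ∉ (qmap (Q := Q) hle).range →
      h ∉ (qmap (Q := Q) hle).range → g * h ∈ (qmap (Q := Q) hle).range := by
    intro n g hn hg
    induction n using QuotientGroup.induction_on with
    | H n =>
      induction g using QuotientGroup.induction_on with
      | H g =>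
        rw [mem_qrange hle hQH] at hn hg
        rw [← QuotientGroup.mk_mul, mem_qrange hle hQH]
        exact (Subgroup.mul_mem_iff_of_index_two h3).2 (by tauto)
  -- the number
  have hcQ : Nat.card (Q.subgroupOf K) = Nat.card (Q.subgroupOf H) := by
    rw [Nat.card_congr (Subgroup.subgroupOfEquivOfLe (hQH.trans hle)).toEquiv,
      Nat.card_congr (Subgroup.subgroupOfEquivOfLe hQH).toEquiv]
  have hcP : Nat.card P = Nat.card (P.map (QuotientGroup.mk' (Q.subgroupOf K))) *
      Nat.card (Q.subgroupOf K) := by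
    have h9 : (P.map (QuotientGroup.mk' (Q.subgroupOf K))).index = P.index :=
      Subgroup.index_map_eq P (QuotientGroup.mk'_surjective _)
        (by rw [QuotientGroup.ker_mk']; exact hQP)
    have h10 := Subgroup.card_mul_index P
    have h11 := Subgroup.card_mul_index (P.map (QuotientGroup.mk' (Q.subgroupOf K)))
    have h12 := Subgroup.card_eq_card_quotient_mul_card_subgroup (Q.subgroupOf K)
    rw [h9] at h11
    have h13 : 0 < P.index := Nat.pos_of_ne_zero Subgroup.index_ne_zero_of_finite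
    apply Nat.eq_of_mul_eq_mul_right h13
    rw [h10, h12, ← h11]
    ring
  have hvalq : Sbb.n.factorization 2 +
      (Nat.card (P.map (QuotientGroup.mk' (Q.subgroupOf K)))).factorization 2 =
      (Nat.card (H ⧸ Q.subgroupOf H)).factorization 2 := by
    have h9 := Subgroup.card_eq_card_quotient_mul_card_subgroup (Q.subgroupOf H)
    have h10 : Nat.card (Q.subgroupOf H) ≠ 0 := Nat.card_pos.ne'
    have h11 : Nat.card (H ⧸ Q.subgroupOf H) ≠ 0 := Nat.card_pos.ne'
    have h12 : Nat.card (P.map (QuotientGroup.mk' (Q.subgroupOf K))) ≠ 0 := Nat.card_pos.ne'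
    rw [hcP, h9, hcQ, Nat.factorization_mul h12 h10, Nat.factorization_mul h11 h10] at hval
    have h13 : Sbb.n = Sb.n := rfl
    rw [h13]
    simp only [Finsupp.add_apply] at hval
    omega
  obtain ⟨q, hL⟩ := exists_lev_two O h2 (i := qmap (Q := Q) hle) (qmap_injective hle) hrn hidx
    bb hbbl Sbb (mp O (qmap (Q := Q) hle) bb) rfl hcq hFFq hnil S2 hwq hPQq
    (t : K ⧸ Q.subgroupOf K)
    ((Pool.Agent.Helper32.ND.mem_map_mk (Q.subgroupOf K) Q' (hQP.trans hPQ.1) t).2 ht)
    (fun h => ht' ((Pool.Agent.Helper32.ND.mem_map_mk (Q.subgroupOf K) P hQP t).1 h)) hvalq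
  apply sum_of_orb O h2 _ he hec SK P Q'
  intro u hu
  refine Pool.Agent.Helper32.ND.transfer O h2 _ he hec SK (Q.subgroupOf K) hQK2 P Q' hQP
    hPQ.1 u ?_
  rw [hpr, ← hS2]
  exact orb_of_lev h2 hPQq
    ((Pool.Agent.Helper32.ND.mem_map_mk (Q.subgroupOf K) Q' (hQP.trans hPQ.1) t).2 ht)
    (fun h => ht' ((Pool.Agent.Helper32.ND.mem_map_mk (Q.subgroupOf K) P hQP t).1 h)) hL
    (u : K ⧸ Q.subgroupOf K) (by rw [← QuotientGroup.mk_mul, hu, QuotientGroup.mk_one])

end Pool.Agent.Helper32.ST
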